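import Pool.Agent.Work.MP_f3e7a9_wc.Interface

namespace Pool.Agent.Work.MP_f3e7a9_wc

open Set Cardinal Topology
open Pool.Agent.Work.MP_f3e7a9_gt (IsClubIn Cl exists_bound card_Iic_lt)

theorem INE_club (κ : Cardinal.{0}) (hr : κ.IsRegular) (β : Ordinal.{0}) (hβ : β < κ.ord) :
    IsClubIn κ {α | β ≤ α ∧ α < κ.ord} := by
  refine ⟨fun α hα => hα.2, ?_, ?_⟩
  · intro γ hγ
    exact ⟨max β γ, ⟨le_max_left _ _, max_lt hβ hγ⟩, le_max_right _ _⟩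
  · intro γ hγ hlim h
    refine ⟨?_, hγ⟩
    obtain ⟨δ, hδ, h1, h2⟩ := h 0 (by
      rcases eq_or_ne γ 0 with h0 | h0
      · exact absurd (h0 ▸ isMin_bot) hlim.1
      · exact pos_iff_ne_zero.2 h0)
    exact hδ.1.trans h2.le

theorem p_INE : Stmt_INE := by
  intro κ h0 hr hI A
  obtain ⟨B, hB, hst⟩ := hI (fun α => {ξ | ξ < α ∧ α ∈ A ξ}) (fun α _ ξ hξ => hξ.1)
  refine ⟨{α | α < κ.ord ∧ B ∩ Iio α = {ξ | ξ < α ∧ α ∈ A ξ}}, fun α hα => hα.1, ?_, ?_⟩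
  · intro β hβ
    obtain ⟨α, hα, h⟩ := hst _ (INE_club κ hr β hβ)
    exact ⟨α, ⟨hα.2, h⟩, hα.1⟩
  · intro ξ hξ
    have hlt : Order.succ ξ < κ.ord := (isSuccLimit_ord hr.aleph0_le).succ_lt hξ
    refine ⟨Order.succ ξ, hlt, ?_⟩
    have key : ∀ γ, B ∩ Iio γ = {ξ | ξ < γ ∧ γ ∈ A ξ} → Order.succ ξ ≤ γ → (γ ∈ A ξ ↔ ξ ∈ B) := by
      intro γ hγ hle
      have hlt' : ξ < γ := Order.succ_le_iff.1 hle
      have := Set.ext_iff.1 hγ ξ
      simp only [mem_inter_iff, mem_Iio, mem_ofPred_eq, hlt', and_true, true_and] at this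
      exact this.symm
    by_cases hξB : ξ ∈ B
    · left
      intro γ hγ hle
      exact (key γ hγ.2 hle).2 hξB
    · right
      intro γ hγ hle h
      exact hξB ((key γ hγ.2 hle).1 h)

end Pool.Agent.Work.MP_f3e7a9_wc
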