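import Pool.Agent.Work.MP_f3e7a9_wc.Interface2

namespace Pool.Agent.Work.MP_f3e7a9_wc

open Set Cardinal Topology
open Pool.Agent.Work.MP_f3e7a9_gt (IsClubIn Cl exists_bound card_Iic_lt)

theorem p_CDF2 (hLOF : Stmt_LOF2) : Stmt_CDF2 := by
  intro κ μ hμ X _ u G0 V g hp hV hG0 δ hδ hU
  classical
  have hsub : ∀ ε < δ, ∀ β < ε, (⋂ ξ ∈ Iio δ, closure (u β ξ)) ⊆ V ε β := by
    intro ε hε β hβ x hx
    obtain ⟨ξ, hξ, h⟩ := (hV ε (hε.trans hδ.1)).2.2 β hβ
    exact h (mem_iInter₂.1 hx ξ (hξ.trans (hδ.2.2 ε hε)))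
  have hsub0 : ∀ β < δ, (⋂ ξ ∈ Iio δ, closure (u β ξ)) ⊆ G0 := by
    intro β hβ x hx
    obtain ⟨ξ, hξ, h⟩ := hG0 β (hβ.trans hδ.1) β le_rfl
    exact h (mem_iInter₂.1 hx ξ (hξ.trans (hδ.2.2 β hβ)))
  refine ⟨?_, ?_⟩
  · apply hLOF μ hμ
    · intro p
      rcases hp p with h | ⟨G, h1, h2, h3⟩
      · exact Or.inl h
      · exact Or.inr ⟨G, h1, h2, fun i => h3.mono_left (hsub0 i.1 i.2)⟩
    · intro J hJ
      rcases J.eq_empty_or_nonempty with hJe | hJn
      · have hem : IsEmpty ↥J := by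
          rw [hJe]
          exact isEmpty_coe_sort.2 rfl
        intro p
        refine ⟨univ, Filter.univ_mem, ?_⟩
        exact Set.toFinite _
      · obtain ⟨j0, hj0⟩ := hJn
        have hcard : #↥J ≤ #(Iio μ.ord) := by
          rw [Cardinal.mk_Iio_ordinal, card_ord]
          exact hJ
        obtain ⟨e⟩ := Cardinal.le_def _ _ |>.1 hcard
        obtain ⟨s, hs⟩ : ∃ s : Ordinal.{0} → Ordinal.{0}, s = fun i =>
            if h : ∃ j : ↥J, (e j : Ordinal.{0}) = i then (h.choose.1 : Ordinal.{0}) else j0 :=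
          ⟨_, rfl⟩
        have hsδ : ∀ i < μ.ord, s i < δ := by
          intro i _
          rw [hs]
          dsimp only
          split_ifs with h
          · exact h.choose.1.2
          · exact j0.2
        obtain ⟨ε, hε, hs'⟩ := hU s hsδ
        have hb : ∀ j : ↥J, (j.1 : Ordinal.{0}) < ε := by
          intro j
          have h1 := hs' (e j) (e j).2
          rw [hs] at h1
          dsimp only at h1
          have h : ∃ j' : ↥J, (e j' : Ordinal.{0}) = e j := ⟨j, rfl⟩
          rw [dif_pos h] at h1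
          have h2 : h.choose = j := e.injective (Subtype.ext h.choose_spec)
          rw [h2] at h1
          exact h1
        have h1 := (hV ε (hε.trans hδ.1)).1
        have hinj : Function.Injective (fun j : ↥J => (⟨j.1, hb j⟩ : Iio ε)) := by
          intro a b hab
          exact Subtype.ext (Subtype.ext (congrArg (fun t : Iio ε => (t : Ordinal.{0})) hab))
        have h2 := h1.comp_injective hinj
        exact h2.subset (fun j => hsub ε hε _ (hb j))
  · intro β hβ γ hγ hne
    have hε : Order.succ (max β γ) < δ := hδ.2.1.succ_lt (max_lt hβ hγ)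
    have hb : β < Order.succ (max β γ) := Order.lt_succ_of_le (le_max_left _ _)
    have hc : γ < Order.succ (max β γ) := Order.lt_succ_of_le (le_max_right _ _)
    exact Disjoint.mono (hsub _ hε β hb) (hsub _ hε γ hc)
      ((hV _ (hε.trans hδ.1)).2.1 β hb γ hc hne)

end Pool.Agent.Work.MP_f3e7a9_wc
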