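import Pool.Agent.Work.MP_f3e7a9_wc.Interface2

namespace Pool.Agent.Work.MP_f3e7a9_wc

open Set Cardinal Topology
open Pool.Agent.Work.MP_f3e7a9_gt (IsClubIn Cl exists_bound card_Iic_lt)

theorem p_CLH : Stmt_CLH := by
  intro κ _ hr X _ _ d u N hN hG hu
  classical
  have h1 : ∀ β < κ.ord, ∀ G ∈ N β, ∃ ξ < κ.ord, closure (u β ξ) ⊆ G := by
    intro β hβ G hGN
    obtain ⟨ho, hm⟩ := hG β hβ G hGN
    obtain ⟨C, ⟨hC1, hC2⟩, hC3⟩ :=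
      (closed_nhds_basis (d β)).mem_iff.1 (ho.mem_nhds hm)
    obtain ⟨ξ, hξ, hsub⟩ := hu β hβ (interior C) isOpen_interior (mem_interior_iff_mem_nhds.2 hC1)
    refine ⟨ξ, hξ, ?_⟩
    exact (closure_minimal (hsub.trans interior_subset) hC2).trans hC3
  have h2 : ∀ β < κ.ord, ∃ b < κ.ord, ∀ G ∈ N β, ∃ ξ < b, closure (u β ξ) ⊆ G := by
    intro β hβ
    have hex : ∀ i : ULift.{1} ↥(N β), ∃ ξ < κ.ord, closure (u β ξ) ⊆ (i.down : Set X) :=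
      fun i => h1 β hβ _ i.down.2
    choose F hF1 hF2 using hex
    have hcard : #(ULift.{1} ↥(N β)) < Cardinal.lift.{1} κ := by
      rw [Cardinal.mk_uLift]
      exact Cardinal.lift_lt.2 (hN β hβ)
    obtain ⟨b, hb, hb'⟩ := exists_bound hr hcard F hF1
    exact ⟨b, hb, fun G hGN => ⟨F ⟨⟨G, hGN⟩⟩, hb' _, hF2 ⟨⟨G, hGN⟩⟩⟩⟩
  have h3 : ∀ β : Ordinal.{0}, ∃ b, β < κ.ord → b < κ.ord ∧
      ∀ G ∈ N β, ∃ ξ < b, closure (u β ξ) ⊆ G := by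
    intro β
    by_cases hβ : β < κ.ord
    · obtain ⟨b, hb, hb'⟩ := h2 β hβ
      exact ⟨b, fun _ => ⟨hb, hb'⟩⟩
    · exact ⟨0, fun h => absurd h hβ⟩
  choose b hb using h3
  have h4 : ∀ ε : Ordinal.{0}, ∃ c < κ.ord, ε < κ.ord → ∀ β ≤ ε, b β < c := by
    intro ε
    by_cases hε : ε < κ.ord
    · obtain ⟨c, hc, hc'⟩ := exists_bound hr (card_Iic_lt hr hε) (fun x : Iic ε => b x)
        (fun x => (hb _ (lt_of_le_of_lt x.2 hε)).1)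
      exact ⟨c, hc, fun _ β hβ => hc' ⟨β, hβ⟩⟩
    · have h0 : (0 : Ordinal.{0}) < κ.ord := (isSuccLimit_ord hr.aleph0_le).bot_lt
      exact ⟨0, h0, fun h => absurd h hε⟩
  choose g hg1 hg2 using h4
  refine ⟨g, fun α _ => hg1 α, ?_⟩
  intro ε hε β hβ G hGN
  obtain ⟨ξ, hξ, hsub⟩ := (hb β (lt_of_le_of_lt hβ hε)).2 G hGN
  exact ⟨ξ, hξ.trans (hg2 ε hε β hβ), hsub⟩

end Pool.Agent.Work.MP_f3e7a9_wc
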