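import Pool.Agent.Work.MP_f3e7a9_wc.Interface

namespace Pool.Agent.Work.MP_f3e7a9_wc

open Set Cardinal Topology
open Pool.Agent.Work.MP_f3e7a9_gt (IsClubIn Cl exists_bound card_Iic_lt)

theorem CLO_lf {X : Type} [TopologicalSpace X] (o : Ordinal.{0}) (d : Ordinal.{0} → X)
    (hd : InjOn d (Iio o)) (hcl : ∀ S ⊆ Iio o, IsClosed (d '' S)) (ε : Ordinal.{0}) (hε : ε ≤ o) :
    LocallyFinite fun β : Iio ε => ({d β} : Set X) := by
  intro p
  have hS : {β | β < ε ∧ d β ≠ p} ⊆ Iio o := fun β hβ => lt_of_lt_of_le hβ.1 hε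
  refine ⟨(d '' {β | β < ε ∧ d β ≠ p})ᶜ, (hcl _ hS).isOpen_compl.mem_nhds ?_, ?_⟩
  · rintro ⟨β, hβ, h⟩
    exact hβ.2 h
  · apply Set.Subsingleton.finite
    have key : ∀ i : Iio ε, (({d i} : Set X) ∩ (d '' {β | β < ε ∧ d β ≠ p})ᶜ).Nonempty → d i = p := by
      rintro i ⟨y, hy1, hy2⟩
      rw [mem_singleton_iff] at hy1
      subst hy1
      by_contra hne
      exact hy2 ⟨i, ⟨i.2, hne⟩, rfl⟩
    intro i hi j hj
    apply Subtype.ext
    exact hd (lt_of_lt_of_le i.2 hε) (lt_of_lt_of_le j.2 hε) ((key i hi).trans (key j hj).symm)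

theorem p_CLO (hLFE : Stmt_LFE) : Stmt_CLO := by
  classical
  intro κ h0 hr X _ _ d u hd hcl hb hsep
  have hex : ∀ ε : Ordinal.{0}, ∃ (V : Ordinal.{0} → Set X) (b : Ordinal.{0}), ε < κ.ord →
      b < κ.ord ∧ (LocallyFinite fun β : Iio ε => V β) ∧
      (∀ β < ε, ∀ γ < ε, β ≠ γ → Disjoint (V β) (V γ)) ∧
      ∀ β < ε, ∃ ξ < b, closure (u β ξ) ⊆ V β := by
    intro ε
    by_cases hε : ε < κ.ord
    swap
    · exact ⟨fun _ => ∅, 0, fun h => absurd h hε⟩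
    obtain ⟨W, hW1, hW2⟩ := hsep ε hε
    obtain ⟨O, hO1, hO2, hO3, hO4⟩ := hLFE X (Iio ε) (fun β => {d β}) (fun β => W β)
      (fun β => isClosed_singleton) (CLO_lf κ.ord d hd hcl ε hε.le)
      (fun β => (hW1 β β.2).1) (fun β => singleton_subset_iff.2 (hW1 β β.2).2)
      (fun β γ hne => hW2 β β.2 γ γ.2 fun h => hne (Subtype.ext h))
    have hx : ∀ β : Iio ε, ∃ ξ < κ.ord, closure (u β ξ) ⊆ O β := by
      intro β
      have hmem : O β ∈ 𝓝 (d β) := (hO1 β).mem_nhds (singleton_subset_iff.1 (hO2 β))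
      obtain ⟨t, ht1, ht2, ht3⟩ := exists_mem_nhds_isClosed_subset hmem
      obtain ⟨ξ, hξ, h⟩ := hb β (β.2.trans hε) (interior t) isOpen_interior
        (mem_interior_iff_mem_nhds.2 ht1)
      exact ⟨ξ, hξ, (closure_minimal (h.trans interior_subset) ht2).trans ht3⟩
    choose x hx1 hx2 using hx
    obtain ⟨b, hb1, hb2⟩ := exists_bound hr (ι := Iio ε)
      (by
        rw [Cardinal.mk_Iio_ordinal, Cardinal.lift_lt]
        exact lt_ord.1 hε)
      x hx1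
    refine ⟨fun β => if h : β < ε then O ⟨β, h⟩ else ∅, b, fun _ => ⟨hb1, ?_, ?_, ?_⟩⟩
    · have : (fun β : Iio ε => (if h : (β : Ordinal.{0}) < ε then O ⟨β, h⟩ else ∅)) = O := by
        funext β
        have hβ : (β : Ordinal.{0}) < ε := β.2
        rw [dif_pos hβ]
      rw [this]
      exact hO4
    · intro β hβ γ hγ hne
      simp only [dif_pos hβ, dif_pos hγ]
      exact Disjoint.mono (hO3 _) (hO3 _) (hW2 β hβ γ hγ hne)
    · intro β hβ
      refine ⟨x ⟨β, hβ⟩, hb2 _, ?_⟩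
      simp only [dif_pos hβ]
      exact hx2 ⟨β, hβ⟩
  choose V g hVg using hex
  exact ⟨V, g, fun α hα => (hVg α hα).1, fun ε hε => (hVg ε hε).2⟩

end Pool.Agent.Work.MP_f3e7a9_wc
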