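import Pool.Agent.Work.MP_f3e7a9_wc.Interface2

/-!
The core theorem, second version.
-/

namespace Pool.Agent.Work.MP_f3e7a9_wc

open Set Cardinal Topology
open Pool.Agent.Work.MP_f3e7a9_gt (IsClubIn Cl exists_bound card_Iic_lt nat_lt_of)

/-- points of a closed discrete family are locally finite. -/
theorem COR2_lf {X : Type} [TopologicalSpace X] (d : Ordinal.{0} → X) (κ : Cardinal.{0})
    (hd : InjOn d (Iio κ.ord)) (hcl : ∀ S ⊆ Iio κ.ord, IsClosed (d '' S)) (ε : Ordinal.{0})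
    (hε : ε < κ.ord) : LocallyFinite fun β : Iio ε => ({d β.1} : Set X) := by
  intro p
  by_cases hp : p ∈ d '' Iio ε
  · obtain ⟨β, hβ, rfl⟩ := hp
    have h1 : IsClosed (d '' (Iio ε \ {β})) :=
      hcl _ (sdiff_subset.trans (Iio_subset_Iio hε.le))
    refine ⟨(d '' (Iio ε \ {β}))ᶜ, h1.isOpen_compl.mem_nhds ?_, ?_⟩
    · rintro ⟨γ, hγ, h⟩
      exact hγ.2 (hd (lt_trans (mem_Iio.1 hγ.1) hε) (lt_trans (mem_Iio.1 hβ) hε) h)
    · refine (Set.finite_singleton (⟨β, hβ⟩ : Iio ε)).subset ?_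
      rintro γ ⟨x, hx1, hx2⟩
      rw [mem_singleton_iff] at hx1
      rw [mem_singleton_iff]
      by_contra hne
      apply hx2
      refine ⟨γ.1, ⟨γ.2, fun h => hne (Subtype.ext h)⟩, hx1.symm⟩
  · have h1 : IsClosed (d '' (Iio ε)) := hcl _ (Iio_subset_Iio hε.le)
    refine ⟨(d '' (Iio ε))ᶜ, h1.isOpen_compl.mem_nhds hp, ?_⟩
    refine Set.finite_empty.subset ?_
    rintro γ ⟨x, hx1, hx2⟩
    rw [mem_singleton_iff] at hx1
    exact absurd ⟨γ.1, γ.2, hx1.symm⟩ hx2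

theorem p_COR2 (h2 : Stmt_CLO) (h3 : Stmt_DRG) (h1 : Stmt_CLH) (h4 : Stmt_CDF2)
    (h5 : Stmt_DIR2) (h6 : Stmt_REF2) : Stmt_COR2 := by
  intro κ h0 hr hN μ hμ hμ0 X _ _ d u H U hd hcl huo hub hH hU hdU hUp hsep
  classical
  have hpts : ∀ ε < κ.ord, ∃ W : Ordinal.{0} → Set X, (∀ β < ε, IsOpen (W β) ∧ d β ∈ W β) ∧
      ∀ β < ε, ∀ γ < ε, β ≠ γ → Disjoint (W β) (W γ) := by
    intro ε hε
    obtain ⟨W, hW1, hW2⟩ := hsep ε hε (fun β => {d β})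
      (fun β hβ => ⟨isCompact_singleton, singleton_subset_iff.2 (hH β (hβ.trans hε)).2.1⟩)
      (COR2_lf d κ hd hcl ε hε)
      (fun β hβ γ hγ hne => disjoint_singleton.2 fun h => hne (hd (hβ.trans hε) (hγ.trans hε) h))
    exact ⟨W, fun β hβ => ⟨(hW1 β hβ).1, singleton_subset_iff.1 (hW1 β hβ).2⟩, hW2⟩
  obtain ⟨V, g1, hg1, hV⟩ := h2 κ h0 hr X d u hd hcl hub hpts
  obtain ⟨g2, hg2, hdr⟩ := h3 κ h0 hr X d u huo hub
  -- a closed neighbourhood of the closed discrete set inside `U`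
  obtain ⟨G0, hG0, hDG0, hG0U⟩ := normal_exists_closure_subset (hcl _ subset_rfl) hU
    (show d '' Iio κ.ord ⊆ U by rintro _ ⟨β, hβ, rfl⟩; exact hdU β hβ)
  have hpt : ∀ p : X, (∃ L : Set X, IsCompact L ∧ p ∈ L ∧ CharLe μ L) ∨
      ∃ G : Set X, IsOpen G ∧ p ∈ G ∧ Disjoint G0 G := by
    intro p
    by_cases hp : p ∈ closure G0
    · exact Or.inl (hUp p (hG0U hp))
    · exact Or.inr ⟨(closure G0)ᶜ, isClosed_closure.isOpen_compl, hp,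
        disjoint_compl_right.mono_left subset_closure⟩
  have hNe : ∀ β : Ordinal.{0}, ∃ N : Set (Set X), β < κ.ord → (#↥N ≤ μ ∧
      (∀ G ∈ N, IsOpen G ∧ H β ⊆ G) ∧ ∀ O : Set X, IsOpen O → H β ⊆ O → ∃ G ∈ N, G ⊆ O) := by
    intro β
    by_cases hβ : β < κ.ord
    · obtain ⟨N, hN⟩ := (hH β hβ).2.2
      exact ⟨N, fun _ => hN⟩
    · exact ⟨∅, fun h => absurd h hβ⟩
  choose N hN' using hNe
  obtain ⟨g3, hg3, hclh⟩ := h1 κ h0 hr X d u (fun β => insert G0 (N β))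
    (by
      intro β hβ
      refine lt_of_le_of_lt (Cardinal.mk_insert_le) ?_
      have h7 : #↥(N β) < κ := (hN' β hβ).1.trans_lt hμ
      exact Cardinal.add_lt_of_lt hr.aleph0_le h7 (one_lt_aleph0.trans_le hr.aleph0_le))
    (by
      intro β hβ G hG
      rcases hG with rfl | hG
      · exact ⟨hG0, hDG0 ⟨β, hβ, rfl⟩⟩
      · exact ⟨((hN' β hβ).2.1 G hG).1, ((hN' β hβ).2.1 G hG).2 (hH β hβ).2.1⟩)
    hub
  obtain ⟨g, hgdef⟩ : ∃ g : Ordinal.{0} → Ordinal.{0},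
      g = fun x => max (g1 x) (max (g2 x) (g3 x)) := ⟨_, rfl⟩
  have hg : ∀ α < κ.ord, g α < κ.ord := by
    intro α hα
    rw [hgdef]
    exact max_lt (hg1 α hα) (max_lt (hg2 α hα) (hg3 α hα))
  have hle1 : ∀ x, g1 x ≤ g x := by
    intro x
    rw [hgdef]
    exact le_max_left _ _
  have hle2 : ∀ x, g2 x ≤ g x := by
    intro x
    rw [hgdef]
    exact (le_max_left _ _).trans (le_max_right _ _)
  have hle3 : ∀ x, g3 x ≤ g x := by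
    intro x
    rw [hgdef]
    exact (le_max_right _ _).trans (le_max_right _ _)
  have hVg : ∀ ε < κ.ord, (LocallyFinite fun β : Iio ε => V ε β) ∧
        (∀ β < ε, ∀ γ < ε, β ≠ γ → Disjoint (V ε β) (V ε γ)) ∧
        ∀ β < ε, ∃ ξ < g ε, closure (u β ξ) ⊆ V ε β := by
    intro ε hε
    refine ⟨(hV ε hε).1, (hV ε hε).2.1, fun β hβ => ?_⟩
    obtain ⟨ξ, hξ, h⟩ := (hV ε hε).2.2 β hβ
    exact ⟨ξ, hξ.trans_le (hle1 ε), h⟩
  have hG0g : ∀ ε < κ.ord, ∀ β ≤ ε, ∃ ξ < g ε, closure (u β ξ) ⊆ G0 := by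
    intro ε hε β hβ
    obtain ⟨ξ, hξ, h⟩ := hclh ε hε β hβ G0 (mem_insert _ _)
    exact ⟨ξ, hξ.trans_le (hle3 ε), h⟩
  -- outer bases of the compact sets below closure points
  have hHO : ∀ δ ∈ Cl κ g, ∀ β < δ, ∀ O : Set X, IsOpen O → H β ⊆ O →
      ∃ ξ < δ, closure (u β ξ) ⊆ O := by
    intro δ hδ β hβ O hO hHO
    obtain ⟨G, hG, hGO⟩ := (hN' β (hβ.trans hδ.1)).2.2 O hO hHO
    obtain ⟨ξ, hξ, h⟩ := hclh β (hβ.trans hδ.1) β le_rfl G (mem_insert_of_mem _ hG)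
    exact ⟨ξ, (hξ.trans_le (hle3 β)).trans (hδ.2.2 β hβ), h.trans hGO⟩
  have hsub : ∀ δ ∈ Cl κ g, ∀ β < δ, (⋂ ξ ∈ Iio δ, closure (u β ξ)) ⊆ H β := by
    intro δ hδ β hβ y hy
    by_contra hyH
    obtain ⟨ξ, hξ, h⟩ := hHO δ hδ β hβ {y}ᶜ isOpen_compl_singleton
      (fun z hz hzy => hyH (by rw [mem_singleton_iff] at hzy; rw [← hzy]; exact hz))
    exact h (mem_iInter₂.1 hy ξ hξ) rfl
  -- the compact sets at a closure point
  have hW : ∀ δ : Ordinal.{0}, ∃ W : Ordinal.{0} → Set X, δ ∈ Cl κ g → UncM μ δ →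
      (∀ β < δ, IsOpen (W β) ∧ (⋂ ξ ∈ Iio δ, closure (u β ξ)) ⊆ W β) ∧
        ∀ β < δ, ∀ γ < δ, β ≠ γ → Disjoint (W β) (W γ) := by
    intro δ
    by_cases hδ : δ ∈ Cl κ g ∧ UncM μ δ
    · obtain ⟨h7, h8⟩ := h4 κ μ hμ0 X u G0 V g hpt hVg hG0g δ hδ.1 hδ.2
      obtain ⟨W, hW1, hW2⟩ := hsep δ hδ.1.1 (fun β => ⋂ ξ ∈ Iio δ, closure (u β ξ))
        (fun β hβ => ⟨(hH β (hβ.trans hδ.1.1)).1.of_isClosed_subset
          (isClosed_biInter fun ξ _ => isClosed_closure) (hsub δ hδ.1 β hβ),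
          hsub δ hδ.1 β hβ⟩) h7 h8
      exact ⟨W, fun _ _ => ⟨hW1, hW2⟩⟩
    · exact ⟨fun _ => ∅, fun h h' => absurd ⟨h, h'⟩ hδ⟩
  choose W hW using hW
  have hf : ∀ δ β : Ordinal.{0}, ∃ ξ, δ ∈ Cl κ g → UncM μ δ → β < δ →
      (ξ < δ ∧ closure (u β ξ) ⊆ W δ β) := by
    intro δ β
    by_cases h : δ ∈ Cl κ g ∧ UncM μ δ ∧ β < δ
    · obtain ⟨hδ, hUn, hβ⟩ := h
      have h0δ : (0 : Ordinal.{0}) < δ := lt_of_le_of_lt zero_le hβ
      obtain ⟨ξ, hξ, hξ'⟩ := h5 X δ (u β) (H β) (W δ β) h0δ (hH β (hβ.trans hδ.1)).1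
        ((hW δ hδ hUn).1 β hβ).1 (hHO δ hδ β hβ) ((hW δ hδ hUn).1 β hβ).2 (by
          intro ξ hξ η hη
          have hε : max β (max ξ η) < δ := max_lt hβ (max_lt hξ hη)
          obtain ⟨ζ, hζ, hζ'⟩ := hdr (max β (max ξ η)) (hε.trans hδ.1) β (le_max_left _ _) ξ
            ((le_max_left _ _).trans (le_max_right _ _)) η
            ((le_max_right _ _).trans (le_max_right _ _))
          exact ⟨ζ, (hζ.trans_le (hle2 _)).trans (hδ.2.2 _ hε), hζ'⟩)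
      exact ⟨ξ, fun _ _ _ => ⟨hξ, hξ'⟩⟩
    · exact ⟨0, fun h1 h2 h3 => absurd ⟨h1, h2, h3⟩ h⟩
  choose f hf using hf
  obtain ⟨F, hF⟩ := h6 κ h0 hr hN μ hμ g hg f (fun δ hδ hUn β hβ => (hf δ β hδ hUn hβ).1)
  refine ⟨fun β => u β (F β), fun β hβ => ?_, fun β hβ γ hγ hne => ?_⟩
  · obtain ⟨δ, hδ, hUn, hβδ, -, h8, -⟩ := hF β hβ β hβ
    have h9 : F β < κ.ord := by
      rw [← h8]
      exact (hf δ β hδ hUn hβδ).1.trans hδ.1
    exact huo β hβ _ h9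
  · obtain ⟨δ, hδ, hUn, hβδ, hγδ, h8, h9⟩ := hF β hβ γ hγ
    have h10 := (hf δ β hδ hUn hβδ).2
    have h11 := (hf δ γ hδ hUn hγδ).2
    rw [h8] at h10
    rw [h9] at h11
    exact ((hW δ hδ hUn).2 β hβδ γ hγδ hne).mono (subset_closure.trans h10)
      (subset_closure.trans h11)

end Pool.Agent.Work.MP_f3e7a9_wc
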