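import Pool.Agent.Work.MP_f3e7a9_wc.Interface

namespace Pool.Agent.Work.MP_f3e7a9_wc

open Set Cardinal Topology

theorem p_DIR : Stmt_DIR := by
  intro X _ _ δ v K W hδ hK hW hsub hdir
  have : Nonempty (Iio δ) := ⟨⟨0, hδ⟩⟩
  have hcpt : ∀ ξ : Iio δ, IsCompact (K ∩ closure (v ξ)) := fun ξ => hK.inter_right isClosed_closure
  obtain ⟨ξ, hξ⟩ := exists_subset_nhds_of_isCompact' (ι := Iio δ)
    (V := fun ξ => K ∩ closure (v ξ)) (U := W)
    (by
      intro ξ η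
      obtain ⟨ζ, hζ, h⟩ := hdir ξ ξ.2 η η.2
      refine ⟨⟨ζ, hζ⟩, ?_, ?_⟩
      · exact inter_subset_inter_right _ (closure_mono (h.trans inter_subset_left))
      · exact inter_subset_inter_right _ (closure_mono (h.trans inter_subset_right)))
    hcpt (fun ξ => (hcpt ξ).isClosed)
    (by
      intro x hx
      apply hW.mem_nhds
      apply hsub
      rw [mem_iInter] at hx
      refine ⟨(hx ⟨0, hδ⟩).1, ?_⟩
      rw [mem_iInter₂]
      intro ξ hξ
      exact (hx ⟨ξ, hξ⟩).2)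
  exact ⟨ξ, ξ.2, hξ⟩

end Pool.Agent.Work.MP_f3e7a9_wc
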