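import Pool.Agent.Work.MP_f3e7a9_wc.Interface2

namespace Pool.Agent.Work.MP_f3e7a9_wc

open Set Cardinal Topology

theorem p_DIR2 (hDIR : Stmt_DIR) : Stmt_DIR2 := by
  intro X _ _ δ v H W hδ hH hW hsm hsub hdir
  obtain ⟨ξ1, h1, h1'⟩ := hDIR X δ v H W hδ hH hW (inter_subset_right.trans hsub) hdir
  have hO : IsOpen (closure (v ξ1) \ W)ᶜ := by
    rw [isOpen_compl_iff]
    exact isClosed_closure.sdiff hW
  obtain ⟨ξ2, h2, h2'⟩ := hsm _ hO (fun x hx hx' => hx'.2 (h1' ⟨hx, hx'.1⟩))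
  obtain ⟨ζ, h3, h3'⟩ := hdir ξ1 h1 ξ2 h2
  refine ⟨ζ, h3, fun x hx => ?_⟩
  by_contra hn
  exact h2' (closure_mono (h3'.trans inter_subset_right) hx)
    ⟨closure_mono (h3'.trans inter_subset_left) hx, hn⟩

end Pool.Agent.Work.MP_f3e7a9_wc
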