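import Pool.Agent.Work.MP_f3e7a9_wc.Interface

namespace Pool.Agent.Work.MP_f3e7a9_wc

open Set Cardinal Topology
open Pool.Agent.Work.MP_f3e7a9_gt (IsClubIn Cl exists_bound card_Iic_lt)

theorem p_ENU : Stmt_ENU := by
  classical
  intro κ h0
  have hk : #(Iio κ.ord) = Cardinal.lift.{1} κ := by
    rw [Cardinal.mk_Iio_ordinal, card_ord]
  have hk0 : ℵ₀ ≤ Cardinal.lift.{1} κ := by simpa using h0.le
  have hord : 0 < κ.ord := by
    rw [pos_iff_ne_zero]
    intro h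
    rw [Cardinal.ord_eq_zero] at h
    rw [h] at h0
    exact not_lt_bot h0
  have : Nonempty (Iio κ.ord) := ⟨⟨0, hord⟩⟩
  have : Infinite (Iio κ.ord) := by
    rw [Cardinal.infinite_iff, hk]
    exact hk0
  have hcard : #(List (Iio κ.ord) × Iio κ.ord) ≤ #(Iio κ.ord) := by
    rw [mk_prod, Cardinal.lift_id, Cardinal.lift_id, Cardinal.mk_list_eq_mk, hk, mul_eq_self hk0]
  obtain ⟨e⟩ := Cardinal.le_def _ _ |>.1 hcard
  refine ⟨fun a => if h : ∃ t : List (Iio κ.ord) × Iio κ.ord, (e t : Ordinal) = a then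
    ((Classical.choose h).1.map Subtype.val, ((Classical.choose h).2 : Ordinal)) else ([], 0), ?_⟩
  intro l ξ hl hξ
  let l' : List (Iio κ.ord) := l.attach.map fun x => ⟨x.1, hl x.1 x.2⟩
  have hl' : l'.map Subtype.val = l := by
    simp [l', List.map_map, Function.comp_def]
  refine ⟨e (l', ⟨ξ, hξ⟩), (e (l', ⟨ξ, hξ⟩)).2, ?_⟩
  have hex : ∃ t : List (Iio κ.ord) × Iio κ.ord, (e t : Ordinal) = e (l', ⟨ξ, hξ⟩) := ⟨_, rfl⟩
  simp only [dif_pos hex]
  have h1 : Classical.choose hex = (l', ⟨ξ, hξ⟩) :=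
    e.injective (Subtype.ext (Classical.choose_spec hex))
  rw [h1, hl']

end Pool.Agent.Work.MP_f3e7a9_wc
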