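import Pool.Agent.Work.MP_f3e7a9_wc.Interface

namespace Pool.Agent.Work.MP_f3e7a9_wc

open Set Cardinal Topology

theorem EXP_closed {X : Type} [TopologicalSpace X] [T1Space X] {I : Type 1} {Y : I → Set X}
    (hY : LocallyFinite Y) (J : Set I) (x : I → X) (hx : ∀ i ∈ J, x i ∈ Y i) (S : Set X)
    (hS : S ⊆ x '' J) : IsClosed S := by
  classical
  have e : S = ⋃ i, (if i ∈ J ∧ x i ∈ S then ({x i} : Set X) else ∅) := by
    ext y
    constructor
    · intro hy
      obtain ⟨i, hi, rfl⟩ := hS hy
      exact mem_iUnion.2 ⟨i, by rw [if_pos ⟨hi, hy⟩]; exact mem_singleton _⟩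
    · intro hy
      obtain ⟨i, hi⟩ := mem_iUnion.1 hy
      split_ifs at hi with h
      · rw [mem_singleton_iff.1 hi]
        exact h.2
      · exact absurd hi (notMem_empty _)
  rw [e]
  refine LocallyFinite.isClosed_iUnion (hY.subset ?_) ?_
  · intro i
    show (if i ∈ J ∧ x i ∈ S then ({x i} : Set X) else ∅) ⊆ Y i
    split_ifs with h
    · exact singleton_subset_iff.2 (hx i h.1)
    · exact empty_subset _
  · intro i
    split_ifs
    · exact isClosed_singleton
    · exact isClosed_empty

theorem p_EXP (hLFE : Stmt_LFE) : Stmt_EXP := by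
  classical
  intro κ X _ _ hCW I hI Y hY hdis J x hx
  have hE : IsClosed (x '' J) := EXP_closed hY J x hx _ subset_rfl
  have hD : DiscreteTopology ↥(x '' J) := by
    rw [discreteTopology_iff_forall_isClosed]
    intro s
    have h1 : IsClosed ((Subtype.val : ↥(x '' J) → X) '' s) :=
      EXP_closed hY J x hx _ (by rintro _ ⟨y, _, rfl⟩; exact y.2)
    have h2 : s = (Subtype.val : ↥(x '' J) → X) ⁻¹' ((Subtype.val : ↥(x '' J) → X) '' s) :=
      (preimage_image_eq s Subtype.val_injective).symm
    rw [h2]
    exact h1.preimage continuous_subtype_val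
  have hcard : #↥(x '' J) < κ := by
    have h1 : Cardinal.lift.{1} #↥(x '' J) ≤ Cardinal.lift.{0} #↥J := mk_image_le_lift
    have h2 : Cardinal.lift.{0} #↥J ≤ #I := by
      rw [Cardinal.lift_id']
      exact mk_set_le J
    exact Cardinal.lift_lt.1 (lt_of_le_of_lt (h1.trans h2) hI)
  obtain ⟨U, hU, hUd⟩ := hCW (x '' J) hE hD hcard
  obtain ⟨O, hO1, hO2, hO3, hO4⟩ := hLFE X I
    (fun i => if i ∈ J then {x i} else ∅) (fun i => if i ∈ J then U (x i) else ∅)
    (fun i => by
      show IsClosed (if i ∈ J then ({x i} : Set X) else ∅)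
      split_ifs
      · exact isClosed_singleton
      · exact isClosed_empty)
    (hY.subset fun i => by
      show (if i ∈ J then ({x i} : Set X) else ∅) ⊆ Y i
      split_ifs with h
      · exact singleton_subset_iff.2 (hx i h)
      · exact empty_subset _)
    (fun i => by
      show IsOpen (if i ∈ J then U (x i) else ∅)
      split_ifs with h
      · exact (hU (x i) (mem_image_of_mem x h)).1
      · exact isOpen_empty)
    (fun i => by
      show (if i ∈ J then ({x i} : Set X) else ∅) ⊆ (if i ∈ J then U (x i) else ∅)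
      split_ifs with h
      · exact singleton_subset_iff.2 (hU (x i) (mem_image_of_mem x h)).2
      · exact empty_subset _)
    (by
      intro i j hij
      show Disjoint (if i ∈ J then U (x i) else ∅) (if j ∈ J then U (x j) else ∅)
      split_ifs with h1 h2 h2
      · apply hUd (mem_image_of_mem x h1) (mem_image_of_mem x h2)
        intro h
        exact disjoint_left.1 (hdis hij) (hx i h1) (h ▸ hx j h2)
      · exact disjoint_bot_right
      · exact disjoint_bot_left
      · exact disjoint_bot_left)
  refine ⟨O, hO1, fun i hi => hO2 i ?_, hO4, ?_⟩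
  · show x i ∈ (if i ∈ J then ({x i} : Set X) else ∅)
    rw [if_pos hi]
    exact mem_singleton _
  · intro i j hij
    refine Disjoint.mono (hO3 i) (hO3 j) ?_
    show Disjoint (if i ∈ J then U (x i) else ∅) (if j ∈ J then U (x j) else ∅)
    split_ifs with h1 h2 h2
    · apply hUd (mem_image_of_mem x h1) (mem_image_of_mem x h2)
      intro h
      exact disjoint_left.1 (hdis hij) (hx i h1) (h ▸ hx j h2)
    · exact disjoint_bot_right
    · exact disjoint_bot_left
    · exact disjoint_bot_left

end Pool.Agent.Work.MP_f3e7a9_wc
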