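import Pool.Agent.Work.MP_f3e7a9_wc.Interface2

namespace Pool.Agent.Work.MP_f3e7a9_wc

open Set Cardinal Topology

theorem p_KH : Stmt_KH := by
  intro X _ _ K p hK hp
  have hstep : ∀ U : {U : Set X // IsOpen U ∧ p ∈ U}, ∃ V : {U : Set X // IsOpen U ∧ p ∈ U},
      closure V.1 ⊆ U.1 := by
    rintro ⟨U, hU, hpU⟩
    obtain ⟨t, ht1, ht2, ht3⟩ := exists_mem_nhds_isClosed_subset (hU.mem_nhds hpU)
    refine ⟨⟨interior t, isOpen_interior, mem_interior_iff_mem_nhds.2 ht1⟩, ?_⟩
    exact (closure_minimal interior_subset ht2).trans ht3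
  choose nx hnx using hstep
  let G : ℕ → {U : Set X // IsOpen U ∧ p ∈ U} := fun n =>
    Nat.rec ⟨interior K, isOpen_interior, hp⟩ (fun _ U => nx U) n
  have hG1 : ∀ n, closure (G (n + 1)).1 ⊆ (G n).1 := fun n => hnx (G n)
  have hanti : Antitone fun n => (G n).1 :=
    antitone_nat_of_succ_le fun n => subset_closure.trans (hG1 n)
  have hGK : ∀ n, (G n).1 ⊆ K := fun n =>
    (hanti (Nat.zero_le n)).trans (show interior K ⊆ K from interior_subset)
  have hKc : IsClosed K := hK.isClosed
  have hH : (⋂ n, (G n).1) = ⋂ n, closure (G (n + 1)).1 := by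
    apply Subset.antisymm
    · exact iInter_mono' fun n => ⟨n + 1, subset_closure⟩
    · exact iInter_mono fun n => hG1 n
  have hcpt : ∀ n, IsCompact (closure (G (n + 1)).1) := fun n =>
    hK.of_isClosed_subset isClosed_closure (closure_minimal (hGK (n + 1)) hKc)
  refine ⟨⋂ n, (G n).1, ?_, mem_iInter.2 fun n => (G n).2.2,
    (iInter_subset _ 0).trans (hGK 0), ?_⟩
  · rw [hH]
    exact hK.of_isClosed_subset (isClosed_iInter fun n => isClosed_closure)
      ((iInter_subset (fun n => closure (G (n + 1)).1) 0).trans (closure_minimal (hGK (0 + 1)) hKc))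
  · refine ⟨range fun n => (G n).1, ?_, ?_, ?_⟩
    · rw [Cardinal.le_aleph0_iff_set_countable]
      exact countable_range _
    · rintro _ ⟨n, rfl⟩
      exact ⟨(G n).2.1, iInter_subset _ n⟩
    · intro O hO hHO
      rw [hH] at hHO
      obtain ⟨n, hn⟩ := exists_subset_nhds_of_isCompact' (ι := ℕ)
        (V := fun n => closure (G (n + 1)).1) (U := O)
        (by
          intro a b
          refine ⟨max a b, ?_, ?_⟩
          · exact closure_mono (hanti (Nat.add_le_add_right (le_max_left a b) 1))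
          · exact closure_mono (hanti (Nat.add_le_add_right (le_max_right a b) 1)))
        hcpt (fun n => isClosed_closure)
        (fun x hx => hO.mem_nhds (hHO hx))
      exact ⟨(G (n + 1)).1, ⟨n + 1, rfl⟩, subset_closure.trans hn⟩

end Pool.Agent.Work.MP_f3e7a9_wc
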