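import Pool.Agent.Work.MP_f3e7a9_wc.Interface

/-! Block LEM: strategy trees give disjoint open expansions. -/

namespace Pool.Agent.Work.MP_f3e7a9_wc

open Set Cardinal Topology

section
variable {X : Type} [TopologicalSpace X]

/-- states -/
abbrev LEM_S (X : Type) [TopologicalSpace X] : Type := Σ Z : Set X, WinT Z

/-- the tree is a cons with chosen point x -/
def LEM_at : LEM_S X → X → Prop
  | ⟨_, WinT.nil⟩, _ => False
  | ⟨_, WinT.cons _ x _ _⟩, y => y = x

open Classical in
/-- next state -/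
noncomputable def LEM_nx : LEM_S X → Set X → LEM_S X
  | ⟨_, WinT.nil⟩, _ => ⟨∅, WinT.nil⟩
  | ⟨_, WinT.cons Y x _ f⟩, O => if h : IsOpen O ∧ x ∈ O then ⟨Y \ O, f O h.1 h.2⟩ else ⟨∅, WinT.nil⟩

theorem LEM_nx_cons (Y : Set X) (x : X) (hx : x ∈ Y) (f : ∀ O : Set X, IsOpen O → x ∈ O → WinT (Y \ O))
    (O : Set X) (h1 : IsOpen O) (h2 : x ∈ O) :
    LEM_nx ⟨Y, WinT.cons Y x hx f⟩ O = ⟨Y \ O, f O h1 h2⟩ := by
  simp only [LEM_nx]
  rw [dif_pos ⟨h1, h2⟩]

theorem LEM_at_mem : ∀ (s : LEM_S X) (x : X), LEM_at s x → x ∈ s.1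
  | ⟨_, WinT.nil⟩, _, h => h.elim
  | ⟨_, WinT.cons _ _ hx _⟩, _, h => by
      have h' : _ = _ := h
      rw [h']
      exact hx

theorem LEM_nx_sub : ∀ (s : LEM_S X) (O : Set X), (LEM_nx s O).1 ⊆ s.1
  | ⟨_, WinT.nil⟩, _ => by
      intro y hy
      exact hy
  | ⟨_, WinT.cons Y x _ f⟩, O => by
      simp only [LEM_nx]
      split_ifs with h
      · exact fun y hy => hy.1
      · exact Set.empty_subset _

theorem LEM_nx_eq : ∀ (s : LEM_S X) (O : Set X), IsOpen O → (∀ x, LEM_at s x → x ∈ O) →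
    (LEM_nx s O).1 = s.1 \ O
  | ⟨_, WinT.nil⟩, O, _, _ => by
      exact (Set.empty_sdiff O).symm
  | ⟨_, WinT.cons Y x _ f⟩, O, hO, h => by
      have hx : x ∈ O := h x rfl
      rw [LEM_nx_cons Y x _ f O hO hx]

end

theorem p_LEM (hSIG : Stmt_SIG) : Stmt_LEM := by
  classical
  intro X _ _ I Y hYc hYf hYd hW hex
  rcases isEmpty_or_nonempty X with hX | hX
  · refine ⟨fun _ => ∅, fun _ => isOpen_empty, ?_, ?_⟩
    · intro i y _
      exact hX.elim y
    · intro i j _
      exact Set.disjoint_left.2 fun y _ _ => hX.elim y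
  have hstep : ∀ σ : I → LEM_S X, ∃ O : I → Set X, (∀ i, IsOpen (O i)) ∧ LocallyFinite O ∧
      ((∀ i, (σ i).1 ⊆ Y i) → ∀ i x, LEM_at (σ i) x → x ∈ O i) := by
    intro σ
    by_cases hv : ∀ i, (σ i).1 ⊆ Y i
    · let x : I → X := fun i => if h : ∃ y, LEM_at (σ i) y then h.choose else Classical.arbitrary X
      obtain ⟨O, h1, h2, h3⟩ := hex {i | ∃ y, LEM_at (σ i) y} x (by
        intro i hi
        have hi' : ∃ y, LEM_at (σ i) y := hi
        simp only [x]
        rw [dif_pos hi']
        exact hv i (LEM_at_mem _ _ hi'.choose_spec))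
      refine ⟨O, h1, h3, ?_⟩
      intro _ i y hy
      have hi' : ∃ y, LEM_at (σ i) y := ⟨y, hy⟩
      have h4 := h2 i hi'
      simp only [x] at h4
      rw [dif_pos hi'] at h4
      have h5 : y = hi'.choose := by
        have h6 := hi'.choose_spec
        revert hy h6
        generalize hi'.choose = z
        rcases σ i with ⟨Z, t⟩
        cases t with
        | nil =>
          intro hy _
          exact hy.elim
        | cons _ x0 _ _ =>
          intro hy hz
          have e1 : y = x0 := hy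
          have e2 : z = x0 := hz
          rw [e1, e2]
      rw [h5]
      exact h4
    · refine ⟨fun _ => ∅, fun _ => isOpen_empty, ?_, fun h => absurd h hv⟩
      intro x
      refine ⟨Set.univ, Filter.univ_mem, ?_⟩
      simp
  choose Of hO1 hO2 hO3 using hstep
  let seq : ℕ → I → LEM_S X := fun n => Nat.rec (fun i => ⟨Y i, (hW i).some⟩)
    (fun _ σ => fun i => LEM_nx (σ i) (Of σ i)) n
  have hs0 : ∀ i, seq 0 i = ⟨Y i, (hW i).some⟩ := fun i => rfl
  have hs1 : ∀ n i, seq (n + 1) i = LEM_nx (seq n i) (Of (seq n) i) := fun n i => rfl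
  have hval : ∀ n i, (seq n i).1 ⊆ Y i := by
    intro n
    induction n with
    | zero => intro i; exact subset_rfl
    | succ n ih =>
      intro i
      rw [hs1]
      exact (LEM_nx_sub _ _).trans (ih i)
  have heq : ∀ n i, (seq (n + 1) i).1 = (seq n i).1 \ Of (seq n) i := by
    intro n i
    rw [hs1]
    exact LEM_nx_eq _ _ (hO1 _ i) (fun x hx => hO3 (seq n) (hval n) i x hx)
  have hterm : ∀ (i : I) (Z : Set X) (t : WinT Z) (n : ℕ), seq n i = ⟨Z, t⟩ → ∃ m, (seq m i).1 = ∅ := by
    intro i Z t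
    induction t with
    | nil =>
      intro n hn
      exact ⟨n, by rw [hn]⟩
    | cons Y' x hx f ih =>
      intro n hn
      have hxO : x ∈ Of (seq n) i := by
        apply hO3 (seq n) (hval n) i x
        rw [hn]
        exact rfl
      refine ih (Of (seq n) i) (hO1 _ i) hxO (n + 1) ?_
      rw [hs1, hn]
      exact LEM_nx_cons Y' x hx f _ (hO1 _ i) hxO
  have hN : ∀ i, ∃ m, (seq m i).1 = ∅ := fun i => hterm i (Y i) (hW i).some 0 (hs0 i)
  choose N hN using hN
  have hcov : ∀ m i, Y i ⊆ (⋃ n ∈ Finset.range m, Of (seq n) i) ∪ (seq m i).1 := by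
    intro m i
    induction m with
    | zero => exact fun y hy => Or.inr hy
    | succ m ih =>
      intro y hy
      rcases ih hy with h | h
      · left
        simp only [Set.mem_iUnion, Finset.mem_range, exists_prop] at h ⊢
        obtain ⟨n, hn, hyn⟩ := h
        exact ⟨n, by omega, hyn⟩
      · by_cases hyO : y ∈ Of (seq m) i
        · left
          simp only [Set.mem_iUnion, Finset.mem_range, exists_prop]
          exact ⟨m, by omega, hyO⟩
        · right
          rw [heq]
          exact ⟨h, hyO⟩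
  refine hSIG X I Y hYc hYf hYd (fun n i => Of (seq n) i) N (fun n i => hO1 _ i) (fun _ => hO2 _) ?_
  intro i y hy
  rcases hcov (N i) i hy with h | h
  · exact h
  · rw [hN i] at h
    exact absurd h (Set.notMem_empty y)

end Pool.Agent.Work.MP_f3e7a9_wc
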