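import Pool.Agent.Work.MP_f3e7a9_wc.Interface

namespace Pool.Agent.Work.MP_f3e7a9_wc

open Set Cardinal Topology

theorem p_LFE : Stmt_LFE := by
  intro X _ _ I Y W hY hYf hW hYW hdis
  have hc : IsClosed (⋃ i, Y i) := hYf.isClosed_iUnion hY
  have ho : IsOpen (⋃ i, W i) := isOpen_iUnion hW
  obtain ⟨G, hG, h1, h2⟩ := normal_exists_closure_subset hc ho (iUnion_mono hYW)
  refine ⟨fun i => W i ∩ G, fun i => (hW i).inter hG,
    fun i => subset_inter (hYW i) ((subset_iUnion Y i).trans h1), fun i => inter_subset_left, ?_⟩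
  intro p
  by_cases hp : p ∈ closure G
  · obtain ⟨i, hi⟩ := mem_iUnion.1 (h2 hp)
    refine ⟨W i, (hW i).mem_nhds hi, (finite_singleton i).subset ?_⟩
    rintro j ⟨x, ⟨hx, _⟩, hx'⟩
    by_contra hne
    exact (disjoint_left.1 (hdis hne)) hx hx'
  · refine ⟨(closure G)ᶜ, isClosed_closure.isOpen_compl.mem_nhds hp, ?_⟩
    have : {i | ((fun i => W i ∩ G) i ∩ (closure G)ᶜ).Nonempty} = ∅ := by
      rw [eq_empty_iff_forall_notMem]
      rintro j ⟨x, ⟨_, hx⟩, hx'⟩
      exact hx' (subset_closure hx)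
    rw [this]
    exact finite_empty

end Pool.Agent.Work.MP_f3e7a9_wc
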