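import Pool.Agent.Work.MP_f3e7a9_wc.Interface2

namespace Pool.Agent.Work.MP_f3e7a9_wc

open Set Cardinal Topology

theorem p_LOF2 : Stmt_LOF2 := by
  intro μ hμ X _ I Y hp hJ p
  classical
  rcases hp p with ⟨H, hH, hpH, N, hN, hN1, hN2⟩ | ⟨G, hG, hpG, h⟩
  · by_cases hfin : ∃ G ∈ N, {i | (Y i ∩ G).Nonempty}.Finite
    · obtain ⟨G, hG, hf⟩ := hfin
      exact ⟨G, (hN1 G hG).1.mem_nhds ((hN1 G hG).2 hpH), hf⟩
    · exfalso
      push Not at hfin
      have hs : ∀ G : ↥N, ∃ s : ℕ → I, Function.Injective s ∧ ∀ n, (Y (s n) ∩ G.1).Nonempty := by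
        intro G
        have h1 : {i | (Y i ∩ G.1).Nonempty}.Infinite := hfin G.1 G.2
        refine ⟨fun n => h1.natEmbedding _ n, ?_, fun n => (h1.natEmbedding _ n).2⟩
        intro a b hab
        exact (h1.natEmbedding _).injective (Subtype.ext hab)
      choose s hs1 hs2 using hs
      let J : Set I := range fun q : ↥N × ℕ => s q.1 q.2
      have hJc : #↥J ≤ Cardinal.lift.{1} μ := by
        have h1 : Cardinal.lift.{0} #↥J ≤ Cardinal.lift.{1} #(↥N × ℕ) :=
          Cardinal.mk_range_le_lift (f := fun q : ↥N × ℕ => s q.1 q.2)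
        rw [Cardinal.lift_uzero] at h1
        refine h1.trans ?_
        rw [Cardinal.lift_le]
        simp only [mk_prod, Cardinal.lift_id, Cardinal.mk_nat]
        calc #↥N * ℵ₀ ≤ μ * μ := mul_le_mul' hN hμ
          _ = μ := Cardinal.mul_eq_self hμ
      have hlf := hJ J hJc
      -- an open neighbourhood of `H` which meets finitely many members
      have hO : ∃ O : Set X, IsOpen O ∧ H ⊆ O ∧ {j : ↥J | (Y j.1 ∩ O).Nonempty}.Finite := by
        choose t ht1 ht2 using hlf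
        have ht3 : ∀ x ∈ H, interior (t x) ∈ 𝓝 x := fun x _ => interior_mem_nhds.2 (ht1 x)
        obtain ⟨F, hF1, hF2⟩ := hH.elim_nhds_subcover (fun x => interior (t x)) ht3
        refine ⟨⋃ x ∈ F, interior (t x), isOpen_biUnion fun x _ => isOpen_interior, hF2, ?_⟩
        have hfin2 : (⋃ x ∈ F, {j : ↥J | (Y j.1 ∩ t x).Nonempty}).Finite :=
          F.finite_toSet.biUnion fun x _ => ht2 x
        refine hfin2.subset ?_
        rintro j ⟨y, hy1, hy2⟩
        obtain ⟨x, hx, hyx⟩ := mem_iUnion₂.1 hy2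
        exact mem_iUnion₂.2 ⟨x, hx, y, hy1, interior_subset hyx⟩
      obtain ⟨O, hO1, hO2, hO3⟩ := hO
      obtain ⟨G, hG, hGO⟩ := hN2 O hO1 hO2
      have hmem : ∀ n : ℕ, s ⟨G, hG⟩ n ∈ J := fun n => ⟨(⟨G, hG⟩, n), rfl⟩
      have hinj : Function.Injective fun n : ℕ => (⟨s ⟨G, hG⟩ n, hmem n⟩ : ↥J) := by
        intro a b hab
        exact hs1 ⟨G, hG⟩ (congrArg Subtype.val hab)
      have hinf : (range fun n : ℕ => (⟨s ⟨G, hG⟩ n, hmem n⟩ : ↥J)).Infinite :=
        Set.infinite_range_of_injective hinj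
      refine hinf (hO3.subset ?_)
      rintro _ ⟨n, rfl⟩
      obtain ⟨y, hy1, hy2⟩ := hs2 ⟨G, hG⟩ n
      exact ⟨y, hy1, hGO hy2⟩
  · refine ⟨G, hG.mem_nhds hpG, ?_⟩
    have h1 : {i | (Y i ∩ G).Nonempty} = ∅ := by
      rw [eq_empty_iff_forall_notMem]
      rintro j ⟨y, hy1, hy2⟩
      exact disjoint_left.1 (h j) hy1 hy2
    rw [h1]
    exact finite_empty

end Pool.Agent.Work.MP_f3e7a9_wc
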