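import Pool.Agent.Work.MP_f3e7a9_wc.Interface2

/-!
Transfer of the core theorem to closed discrete sets of size at most `κ`.
-/

namespace Pool.Agent.Work.MP_f3e7a9_wc

open Set Cardinal Topology

theorem MNA2_lf {X : Type} [TopologicalSpace X] [T1Space X] {D : Set X} (hD : IsClosed D)
    (hdis : DiscreteTopology ↥D) : LocallyFinite fun x : ↥D => ({x.1} : Set X) := by
  have hcl : ∀ S ⊆ D, IsClosed S := by
    intro S hS
    have h1 : IsClosed ((Subtype.val : ↥D → X) ⁻¹' S) := isClosed_discrete _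
    have h2 := hD.isClosedEmbedding_subtypeVal.isClosedMap _ h1
    rwa [Subtype.image_preimage_coe, inter_eq_self_of_subset_right hS] at h2
  intro p
  refine ⟨(D \ {p})ᶜ, (hcl _ sdiff_subset).isOpen_compl.mem_nhds (by simp), ?_⟩
  by_cases hp : p ∈ D
  · refine (Set.finite_singleton (⟨p, hp⟩ : ↥D)).subset ?_
    rintro x ⟨y, hy1, hy2⟩
    rw [mem_singleton_iff] at hy1 ⊢
    subst hy1
    by_contra hne
    exact hy2 ⟨x.2, fun h => hne (Subtype.ext h)⟩
  · refine Set.finite_empty.subset ?_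
    rintro x ⟨y, hy1, hy2⟩
    rw [mem_singleton_iff] at hy1
    subst hy1
    exact hy2 ⟨x.2, fun h => hp (h ▸ x.2)⟩

/-- neighbourhood bases indexed by ordinals below `κ`. -/
theorem MNA2_base {κ : Cardinal.{0}} {X : Type} [TopologicalSpace X] (x : X)
    (hchar : ∃ N : Set (Set X), #↥N ≤ κ ∧ (nhds x).HasBasis (fun s => s ∈ N) id) : ∃ u : Ordinal.{0} → Set X, (∀ i, IsOpen (u i) ∧ x ∈ u i) ∧
      ∀ V : Set X, IsOpen V → x ∈ V → ∃ i < κ.ord, u i ⊆ V := by
  classical
  obtain ⟨N, hN, hb⟩ := hchar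
  have hle : Cardinal.lift.{1} #↥N ≤ #(Iio κ.ord) := by
    rw [Cardinal.mk_Iio_ordinal, card_ord, Cardinal.lift_le]
    exact hN
  obtain ⟨e⟩ := Cardinal.lift_mk_le'.1 (by simpa using hle : Cardinal.lift.{1} #↥N ≤
    Cardinal.lift.{0} #(Iio κ.ord))
  refine ⟨fun i => if h : ∃ s : N, (e s : Ordinal.{0}) = i then interior (h.choose : Set X)
    else univ, fun i => ?_, fun V hV hmem => ?_⟩
  · dsimp only
    split_ifs with h
    · exact ⟨isOpen_interior, mem_interior_iff_mem_nhds.2 (hb.mem_of_mem h.choose.2)⟩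
    · exact ⟨isOpen_univ, mem_univ _⟩
  · obtain ⟨s, hs, hsV⟩ := hb.mem_iff.1 (hV.mem_nhds hmem)
    refine ⟨e ⟨s, hs⟩, (e ⟨s, hs⟩).2, ?_⟩
    have h : ∃ s' : N, (e s' : Ordinal.{0}) = e ⟨s, hs⟩ := ⟨⟨s, hs⟩, rfl⟩
    dsimp only
    rw [dif_pos h]
    have h1 : h.choose = ⟨s, hs⟩ := e.injective (Subtype.ext h.choose_spec)
    rw [h1]
    exact interior_subset.trans hsV

/-- an enumeration of a set of size `κ`. -/
theorem MNA2_enum {κ : Cardinal.{0}} {X : Type} [Nonempty X] {D : Set X} (hD : #↥D = κ) :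
    ∃ d : Ordinal.{0} → X, InjOn d (Iio κ.ord) ∧ d '' Iio κ.ord = D := by
  classical
  have hle : Cardinal.lift.{1} #↥D = Cardinal.lift.{0} #(Iio κ.ord) := by
    rw [Cardinal.mk_Iio_ordinal, card_ord, hD]
    simp
  obtain ⟨e⟩ := Cardinal.lift_mk_eq'.1 hle
  refine ⟨fun i => if h : i ∈ Iio κ.ord then (e.symm ⟨i, h⟩ : X) else Classical.arbitrary X,
    ?_, ?_⟩
  · intro i hi j hj hij
    simp only [dif_pos hi, dif_pos hj] at hij
    have := e.symm.injective (Subtype.ext hij)
    simpa using this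
  · ext x
    constructor
    · rintro ⟨i, hi, rfl⟩
      simp only [dif_pos hi]
      exact (e.symm ⟨i, hi⟩).2
    · intro hx
      refine ⟨(e ⟨x, hx⟩ : Ordinal.{0}), (e ⟨x, hx⟩).2, ?_⟩
      have h : ((e ⟨x, hx⟩ : Ordinal.{0})) ∈ Iio κ.ord := (e ⟨x, hx⟩).2
      simp only [dif_pos h, Subtype.coe_eta, Equiv.symm_apply_apply]

theorem p_MNA2 (hC : Stmt_COR2) : Stmt_MNA2 := by
  intro κ h0 hr hN μ hμ hμ0 X _ _ D hD hdis hle hchar U hU hDU K hK hsep
  classical
  rcases lt_or_eq_of_le hle with hlt | heq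
  · obtain ⟨W, hW1, hW2⟩ := hsep D subset_rfl hlt (fun x => {x})
      (fun x hx => ⟨isCompact_singleton, singleton_subset_iff.2 (hK x (hDU hx)).2.1⟩)
      (MNA2_lf hD hdis) (fun x _ y _ hne => disjoint_singleton.2 hne)
    exact ⟨W, fun x hx => ⟨(hW1 x hx).1, singleton_subset_iff.1 (hW1 x hx).2⟩, hW2⟩
  · have hne : Nonempty X := by
      have : #↥D ≠ 0 := by
        rw [heq]
        exact (aleph0_pos.trans h0).ne'
      obtain ⟨x⟩ := Cardinal.mk_ne_zero_iff.1 this
      exact ⟨x⟩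
    obtain ⟨d, hd, hdD⟩ := MNA2_enum heq
    have hmem : ∀ β < κ.ord, d β ∈ D := fun β hβ => hdD ▸ mem_image_of_mem d hβ
    have hcl' : ∀ S ⊆ Iio κ.ord, IsClosed (d '' S) := by
      intro S hS
      have hS' : d '' S ⊆ D := by
        rintro _ ⟨β, hβ, rfl⟩
        exact hmem β (hS hβ)
      have h1 : IsClosed ((Subtype.val : ↥D → X) ⁻¹' (d '' S)) := isClosed_discrete _
      have h2 := hD.isClosedEmbedding_subtypeVal.isClosedMap _ h1
      rwa [Subtype.image_preimage_coe, inter_eq_self_of_subset_right hS'] at h2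
    have hbase : ∀ x : X, ∃ u : Ordinal.{0} → Set X, x ∈ D → ((∀ i, IsOpen (u i) ∧ x ∈ u i) ∧
        ∀ V : Set X, IsOpen V → x ∈ V → ∃ i < κ.ord, u i ⊆ V) := by
      intro x
      by_cases hx : x ∈ D
      · obtain ⟨u, hu⟩ := MNA2_base x (hchar x hx)
        exact ⟨u, fun _ => hu⟩
      · exact ⟨fun _ => ∅, fun h => absurd h hx⟩
    choose u hu using hbase
    -- the inverse of the enumeration
    have hinv : ∀ x : X, ∃ β, (x ∈ D) → (β < κ.ord ∧ d β = x) := by
      intro x
      by_cases h : x ∈ D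
      · rw [← hdD] at h
        obtain ⟨β, hβ, hx⟩ := h
        exact ⟨β, fun _ => ⟨hβ, hx⟩⟩
      · exact ⟨0, fun h' => absurd h' h⟩
    choose b hb using hinv
    have hbd : ∀ β < κ.ord, b (d β) = β := by
      intro β hβ
      have h1 := hb (d β) (hmem β hβ)
      exact hd h1.1 hβ h1.2
    obtain ⟨Q, hQ1, hQ2⟩ := hC κ h0 hr hN μ hμ hμ0 X d (fun β ξ => u (d β) ξ)
      (fun β => K (d β)) U hd hcl'
      (fun β hβ ξ _ => (hu (d β) (hmem β hβ)).1 ξ) (fun β hβ => (hu (d β) (hmem β hβ)).2)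
      (fun β hβ => hK (d β) (hDU (hmem β hβ))) hU (fun β hβ => hDU (hmem β hβ))
      (fun p hp => ⟨K p, hK p hp⟩) (by
        intro ε hε Y hY hlf hdisY
        have hEsub : d '' Iio ε ⊆ D := by
          rintro _ ⟨β, hβ, rfl⟩
          exact hmem β (lt_trans hβ hε)
        have hbε : ∀ x ∈ d '' Iio ε, b x < ε ∧ d (b x) = x := by
          rintro _ ⟨β, hβ, rfl⟩
          rw [hbd β (lt_trans hβ hε)]
          exact ⟨hβ, rfl⟩
        have hcard : #↥(d '' (Iio ε)) < κ := by
          have h1 : Cardinal.lift.{1} #↥(d '' (Iio ε)) ≤ #(Iio ε) := by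
            have := Cardinal.mk_image_le_lift (f := d) (s := Iio ε)
            simpa using this
          have h2 : #(Iio ε) < Cardinal.lift.{1} κ := by
            rw [Cardinal.mk_Iio_ordinal, Cardinal.lift_lt]
            exact lt_ord.1 hε
          exact Cardinal.lift_lt.1 (h1.trans_lt h2)
        obtain ⟨W, hW1, hW2⟩ := hsep (d '' Iio ε) hEsub hcard (fun x => Y (b x))
          (by
            intro x hx
            have h1 := hbε x hx
            have h2 := hY (b x) h1.1
            rw [h1.2] at h2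
            exact h2)
          (by
            have hinj : Function.Injective fun x : ↥(d '' Iio ε) =>
                (⟨b x.1, (hbε x.1 x.2).1⟩ : Iio ε) := by
              intro x y hxy
              have h1 : b x.1 = b y.1 := congrArg Subtype.val hxy
              apply Subtype.ext
              rw [← (hbε x.1 x.2).2, ← (hbε y.1 y.2).2, h1]
            exact hlf.comp_injective hinj)
          (by
            intro x hx y hy hne
            refine hdisY (b x) (hbε x hx).1 (b y) (hbε y hy).1 ?_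
            intro h
            apply hne
            rw [← (hbε x hx).2, ← (hbε y hy).2, h])
        refine ⟨fun β => W (d β), fun β hβ => ?_, fun β hβ γ hγ hne => ?_⟩
        · have h1 := hW1 (d β) ⟨β, hβ, rfl⟩
          rw [hbd β (hβ.trans hε)] at h1
          exact h1
        · exact hW2 ⟨β, hβ, rfl⟩ ⟨γ, hγ, rfl⟩ fun h => hne (hd (hβ.trans hε) (hγ.trans hε) h))
    refine ⟨fun x => Q (b x), fun x hx => ?_, fun x hx y hy hne => ?_⟩
    · have h1 := hb x hx
      have h2 := hQ1 (b x) h1.1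
      rw [h1.2] at h2
      exact h2
    · refine hQ2 (b x) (hb x hx).1 (b y) (hb y hy).1 ?_
      intro h
      apply hne
      rw [← (hb x hx).2, ← (hb y hy).2, h]

end Pool.Agent.Work.MP_f3e7a9_wc
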