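import Pool.Agent.Work.MP_f3e7a9_wc.Interface

/-!
Weakly compact cardinals: regressive functions are frozen simultaneously.
-/

namespace Pool.Agent.Work.MP_f3e7a9_wc

open Set Cardinal Topology
open Pool.Agent.Work.MP_f3e7a9_gt (IsClubIn Cl exists_bound card_Iic_lt nat_lt_of)

theorem p_NRM (hE : Stmt_ENU) : Stmt_NRM := by
  intro κ h0 hr hW r0 hr0
  classical
  have hκ0 : (0 : Ordinal.{0}) < κ.ord := hr.ord_pos
  have hlim : Order.IsSuccLimit κ.ord := isSuccLimit_ord hr.aleph0_le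
  obtain ⟨r, hrdef⟩ : ∃ r : Ordinal.{0} → Ordinal.{0} → Ordinal.{0}, r = fun i δ =>
      if 0 < δ ∧ δ < κ.ord ∧ i < κ.ord then r0 i δ else 0 := ⟨_, rfl⟩
  have hreq : ∀ i < κ.ord, ∀ δ, 0 < δ → δ < κ.ord → r i δ = r0 i δ := by
    intro i hi δ hδ hδ'
    rw [hrdef]
    simp only [if_pos (And.intro hδ (And.intro hδ' hi))]
  have hrlt : ∀ i δ, 0 < δ → r i δ < δ := by
    intro i δ hδ
    rw [hrdef]
    dsimp only
    split_ifs with h
    · exact hr0 i h.2.2 δ h.1 h.2.1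
    · exact hδ
  have hrk : ∀ i δ, δ < κ.ord → r i δ < κ.ord := by
    intro i δ hδ
    rcases eq_or_ne δ 0 with h | h
    · rw [hrdef]
      dsimp only
      rw [if_neg (by rw [h]; simp)]
      exact hκ0
    · exact (hrlt i δ (pos_iff_ne_zero.2 h)).trans hδ
  obtain ⟨τ, hτdef⟩ : ∃ τ : List Ordinal.{0} → Ordinal.{0} → Ordinal.{0},
      τ = fun l α => l.foldr r α := ⟨_, rfl⟩
  have hτ0 : ∀ α, τ [] α = α := by intro α; rw [hτdef]; rfl
  have hτ1 : ∀ i l α, τ (i :: l) α = r i (τ l α) := by intro i l α; rw [hτdef]; rfl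
  have hτκ : ∀ l, ∀ α < κ.ord, τ l α < κ.ord := by
    intro l
    induction l with
    | nil => intro α hα; rw [hτ0]; exact hα
    | cons i l ih => intro α hα; rw [hτ1]; exact hrk i _ (ih α hα)
  obtain ⟨e, he⟩ := hE κ h0
  obtain ⟨T, hT, hTu, hTd⟩ := hW (fun a => {α | (e a).2 < τ (e a).1 α})
  obtain ⟨Large, hLdef⟩ : ∃ L : Set Ordinal.{0} → Prop,
      L = fun Z => ∃ ρ < κ.ord, ∀ γ ∈ T, ρ ≤ γ → γ ∈ Z := ⟨_, rfl⟩
  have hD : ∀ l : List Ordinal.{0}, (∀ i ∈ l, i < κ.ord) → ∀ ξ < κ.ord,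
      Large {α | ξ < τ l α} ∨ Large {α | τ l α ≤ ξ} := by
    intro l hl ξ hξ
    obtain ⟨a, ha, hea⟩ := he l ξ hl hξ
    obtain ⟨ρ, hρ, h⟩ := hTd a ha
    rw [hLdef]
    rcases h with h | h
    · refine Or.inl ⟨ρ, hρ, fun γ hγ hργ => ?_⟩
      have := h γ hγ hργ
      simp only [hea, mem_ofPred_eq] at this
      exact this
    · refine Or.inr ⟨ρ, hρ, fun γ hγ hργ => ?_⟩
      have := h γ hγ hργ
      simp only [hea, mem_ofPred_eq, not_lt] at this
      exact this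
  have hInt : ∀ (ι : Type 1), #ι < Cardinal.lift.{1} κ → ∀ Z : ι → Set Ordinal.{0},
      (∀ i, Large (Z i)) → Large (⋂ i, Z i) := by
    intro ι hι Z hZ
    rw [hLdef] at hZ ⊢
    choose ρ hρ hρ' using hZ
    obtain ⟨b, hb, hb'⟩ := exists_bound hr hι ρ hρ
    refine ⟨b, hb, fun γ hγ hbγ => mem_iInter.2 fun i => hρ' i γ hγ ((hb' i).le.trans hbγ)⟩
  have hLne : ∀ Z, Large Z → ∃ α ∈ T, α ∈ Z := by
    intro Z hZ
    rw [hLdef] at hZ
    obtain ⟨ρ, hρ, h⟩ := hZ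
    obtain ⟨γ, hγ, h1⟩ := hTu ρ hρ
    exact ⟨γ, hγ, h γ hγ h1⟩
  have hLmono : ∀ Z Z', Z ⊆ Z' → Large Z → Large Z' := by
    intro Z Z' hZ h
    rw [hLdef] at h ⊢
    obtain ⟨ρ, hρ, h⟩ := h
    exact ⟨ρ, hρ, fun γ hγ h1 => hZ (h γ hγ h1)⟩
  have hLinter : ∀ Z Z', Large Z → Large Z' → Large (Z ∩ Z') := by
    intro Z Z' h h'
    rw [hLdef] at h h' ⊢
    obtain ⟨ρ, hρ, h⟩ := h
    obtain ⟨ρ', hρ', h'⟩ := h'
    exact ⟨max ρ ρ', max_lt hρ hρ', fun γ hγ h1 =>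
      ⟨h γ hγ ((le_max_left _ _).trans h1), h' γ hγ ((le_max_right _ _).trans h1)⟩⟩
  obtain ⟨Unb, hUdef⟩ : ∃ U : List Ordinal.{0} → Prop,
      U = fun l => ∀ ξ < κ.ord, Large {α | ξ < τ l α} := ⟨_, rfl⟩
  have hU0 : Unb [] := by
    rw [hUdef]
    intro ξ hξ
    rw [hLdef]
    refine ⟨Order.succ ξ, hlim.succ_lt hξ, fun γ hγ h => ?_⟩
    rw [mem_ofPred_eq, hτ0]
    exact Order.succ_le_iff.1 h
  -- a minimal unbounded composition
  obtain ⟨l, hl, hlU, hlmin⟩ : ∃ l : List Ordinal.{0}, (∀ i ∈ l, i < κ.ord) ∧ Unb l ∧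
      ∀ i < κ.ord, ¬ Unb (i :: l) := by
    by_contra hcon
    push Not at hcon
    have hnx : ∀ p : {l : List Ordinal.{0} // (∀ i ∈ l, i < κ.ord) ∧ Unb l},
        ∃ i, i < κ.ord ∧ Unb (i :: p.1) := fun p => hcon p.1 p.2.1 p.2.2
    choose nx hnx1 hnx2 using hnx
    let s : ℕ → {l : List Ordinal.{0} // (∀ i ∈ l, i < κ.ord) ∧ Unb l} := fun n =>
      Nat.rec ⟨[], by simp, hU0⟩ (fun _ p => ⟨nx p :: p.1, by
        intro i hi
        rcases List.mem_cons.1 hi with h | h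
        · rw [h]; exact hnx1 p
        · exact p.2.1 i h, hnx2 p⟩) n
    have hs : ∀ n, (s (n + 1)).1 = nx (s n) :: (s n).1 := fun n => rfl
    have h1 : ∀ n : ULift.{1} ℕ, Large {α | 0 < τ (s n.down).1 α} := by
      intro n
      have h5 : ∀ l, Unb l → Large {α | 0 < τ l α} := by
        intro l hl
        rw [hUdef] at hl
        exact hl 0 hκ0
      exact h5 _ (s n.down).2.2
    obtain ⟨α, hα, hα'⟩ := hLne _ (hInt _ (nat_lt_of h0) _ h1)
    have h2 : ∀ n, τ (s (n + 1)).1 α < τ (s n).1 α := by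
      intro n
      rw [hs, hτ1]
      exact hrlt _ _ (mem_iInter.1 hα' ⟨n⟩)
    exact not_strictAnti_of_wellFoundedLT (fun n => τ (s n).1 α) (strictAnti_nat_of_succ_lt h2)
  have hF : ∀ i : Ordinal.{0}, ∃ ξ, i < κ.ord → ξ < κ.ord ∧ Large {α | r i (τ l α) = ξ} := by
    intro i
    by_cases hi : i < κ.ord
    · have h1 : ∃ ξ, ξ < κ.ord ∧ Large {α | r i (τ l α) ≤ ξ} := by
        have h2 := hlmin i hi
        rw [hUdef] at h2
        push Not at h2
        obtain ⟨ξ, hξ, h3⟩ := h2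
        have hil : ∀ j ∈ i :: l, j < κ.ord := by
          intro j hj
          rcases List.mem_cons.1 hj with h | h
          · rw [h]; exact hi
          · exact hl j h
        rcases hD (i :: l) hil ξ hξ with h | h
        · exact absurd h h3
        · refine ⟨ξ, hξ, ?_⟩
          simpa only [hτ1] using h
      have hwf := wellFounded_lt (α := Ordinal.{0})
      obtain ⟨ξ, hξ, hmin⟩ := hwf.has_min {ξ | ξ < κ.ord ∧ Large {α | r i (τ l α) ≤ ξ}} h1
      refine ⟨ξ, fun _ => ⟨hξ.1, ?_⟩⟩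
      have h3 : ∀ η : Iio ξ, Large {α | η.1 < r i (τ l α)} := by
        intro η
        have hη : η.1 < κ.ord := η.2.trans hξ.1
        have hil : ∀ j ∈ i :: l, j < κ.ord := by
          intro j hj
          rcases List.mem_cons.1 hj with h | h
          · rw [h]; exact hi
          · exact hl j h
        rcases hD (i :: l) hil η hη with h | h
        · simpa only [hτ1] using h
        · exact absurd η.2 (hmin η.1 ⟨hη, by simpa only [hτ1] using h⟩)
      have hc : #(Iio ξ) < Cardinal.lift.{1} κ :=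
        lt_of_le_of_lt (Cardinal.mk_le_mk_of_subset Iio_subset_Iic_self) (card_Iic_lt hr hξ.1)
      have h4 := hLinter _ _ (hInt _ hc _ h3) hξ.2
      refine hLmono _ _ ?_ h4
      rintro α ⟨ha, hb⟩
      rw [mem_iInter] at ha
      rw [mem_ofPred_eq] at hb ⊢
      refine le_antisymm hb ?_
      by_contra hlt
      exact absurd (ha ⟨r i (τ l α), not_le.1 hlt⟩) (by simp)
    · exact ⟨0, fun h => absurd h hi⟩
  choose F hF using hF
  refine ⟨F, fun ρ hρ => ?_⟩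
  have h1 : ∀ i : Iio ρ, Large {α | r i.1 (τ l α) = F i.1} := fun i => (hF i.1 (i.2.trans hρ)).2
  have hc : #(Iio ρ) < Cardinal.lift.{1} κ :=
    lt_of_le_of_lt (Cardinal.mk_le_mk_of_subset Iio_subset_Iic_self) (card_Iic_lt hr hρ)
  have h2 : Large {α | ρ < τ l α} := by
    rw [hUdef] at hlU
    exact hlU ρ hρ
  obtain ⟨α, hα, hα1, hα2⟩ := hLne _ (hLinter _ _ (hInt _ hc _ h1) h2)
  have h3 : τ l α < κ.ord := hτκ l α (hT hα)
  refine ⟨τ l α, le_of_lt hα2, h3, fun i hi => ?_⟩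
  have h4 := mem_iInter.1 hα1 ⟨i, hi⟩
  rw [mem_ofPred_eq] at h4
  have h5 : 0 < τ l α := lt_of_le_of_lt zero_le hα2
  rw [hreq i (hi.trans hρ) _ h5 h3] at h4
  exact h4

end Pool.Agent.Work.MP_f3e7a9_wc
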