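import Pool.Agent.Work.MP_f3e7a9_wc.Interface

/-! Block SCW: compact scattered sets have strategy trees. -/

namespace Pool.Agent.Work.MP_f3e7a9_wc

open Set Cardinal Topology

section
variable {X : Type} [TopologicalSpace X]

theorem SCW_cons {C : Set X} {x : X} (hx : x ∈ C)
    (h : ∀ O : Set X, IsOpen O → x ∈ O → Nonempty (WinT (C \ O))) : Nonempty (WinT C) :=
  ⟨WinT.cons C x hx (fun O h1 h2 => (h O h1 h2).some)⟩

/-- all closed subsets of Z have strategy trees -/
def SCWGood (Z : Set X) : Prop := ∀ C ⊆ Z, IsClosed C → Nonempty (WinT C)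

theorem SCW_aux (Z1 Z2 : Set X) (h2 : SCWGood Z2) (A : Set X) (t : WinT A) :
    ∀ C : Set X, IsClosed C → C ⊆ Z1 ∪ Z2 → C ∩ Z1 = A → Nonempty (WinT C) := by
  induction t with
  | nil =>
    intro C hC hsub hA
    refine h2 C ?_ hC
    intro y hy
    rcases hsub hy with h | h
    · have : y ∈ C ∩ Z1 := ⟨hy, h⟩
      rw [hA] at this
      exact absurd this (Set.notMem_empty y)
    · exact h
  | cons Y x hx f ih =>
    intro C hC hsub hA
    have hxC : x ∈ C ∩ Z1 := by rw [hA]; exact hx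
    refine SCW_cons hxC.1 ?_
    intro O hO hxO
    refine ih O hO hxO (C \ O) (hC.sdiff hO) (fun y hy => hsub hy.1) ?_
    rw [← hA]
    ext y
    constructor
    · rintro ⟨⟨h1, h2⟩, h3⟩
      exact ⟨⟨h1, h3⟩, h2⟩
    · rintro ⟨⟨h1, h3⟩, h2⟩
      exact ⟨⟨h1, h2⟩, h3⟩

theorem SCW_union {Z1 Z2 : Set X} (hc : IsClosed Z1) (h1 : SCWGood Z1) (h2 : SCWGood Z2) :
    SCWGood (Z1 ∪ Z2) := by
  intro C hC hCc
  exact SCW_aux Z1 Z2 h2 (C ∩ Z1) (h1 (C ∩ Z1) Set.inter_subset_right (hCc.inter hc)).some C hCc hC rfl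

theorem SCW_fin {α : Type} (t : Finset α) (Z : α → Set X) (hc : ∀ a ∈ t, IsClosed (Z a))
    (hg : ∀ a ∈ t, SCWGood (Z a)) : SCWGood (⋃ a ∈ t, Z a) := by
  classical
  induction t using Finset.induction_on with
  | empty =>
    intro C hC _
    have : C = ∅ := by
      apply Set.eq_empty_of_subset_empty
      intro y hy
      have := hC hy
      simp at this
    rw [this]
    exact ⟨WinT.nil⟩
  | insert a s ha ih =>
    have h1 := ih (fun b hb => hc b (Finset.mem_insert_of_mem hb))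
      (fun b hb => hg b (Finset.mem_insert_of_mem hb))
    have h2 := SCW_union (hc a (Finset.mem_insert_self a s)) (hg a (Finset.mem_insert_self a s)) h1
    intro C hC hCc
    refine h2 C ?_ hCc
    intro y hy
    have := hC hy
    rw [Finset.set_biUnion_insert] at this
    exact this

end

theorem p_SCW : Stmt_SCW := by
  intro X _ _ K hK hsc
  have hKc : IsClosed K := hK.isClosed
  let T : Set X := {x | x ∈ K ∧ ∃ O : Set X, IsOpen O ∧ x ∈ O ∧ SCWGood (K ∩ closure O)}
  have hclaim : ∀ C : Set X, IsClosed C → C ⊆ T → Nonempty (WinT C) := by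
    intro C hC hCT
    have hCK : C ⊆ K := fun y hy => (hCT hy).1
    have hCc : IsCompact C := hK.of_isClosed_subset hC hCK
    have hch : ∀ x : X, ∃ O : Set X, IsOpen O ∧ (x ∈ C → x ∈ O ∧ SCWGood (K ∩ closure O)) := by
      intro x
      by_cases hx : x ∈ C
      · obtain ⟨-, O, h1, h2, h3⟩ := hCT hx
        exact ⟨O, h1, fun _ => ⟨h2, h3⟩⟩
      · exact ⟨∅, isOpen_empty, fun h => absurd h hx⟩
    choose O hO1 hO2 using hch
    obtain ⟨t, ht, hcov⟩ := hCc.elim_nhds_subcover O (fun x hx => (hO1 x).mem_nhds (hO2 x hx).1)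
    have hg : SCWGood (⋃ a ∈ t, (K ∩ closure (O a))) := by
      apply SCW_fin
      · intro a _
        exact hKc.inter isClosed_closure
      · intro a ha
        exact (hO2 a (ht a ha)).2
    refine hg C ?_ hC
    intro y hy
    have := hcov hy
    simp only [Set.mem_iUnion] at this ⊢
    obtain ⟨a, ha, hya⟩ := this
    exact ⟨a, ha, hCK hy, subset_closure hya⟩
  by_cases hKT : K ⊆ T
  · exact hclaim K hKc hKT
  exfalso
  have hne : (K \ T).Nonempty := by
    obtain ⟨x, hx1, hx2⟩ := Set.not_subset.1 hKT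
    exact ⟨x, hx1, hx2⟩
  obtain ⟨p, hp, U, hU, hUp⟩ := hsc (K \ T) Set.diff_subset hne
  have hpU : p ∈ U := by
    have : p ∈ U ∩ (K \ T) := by rw [hUp]; rfl
    exact this.1
  obtain ⟨G, hG, hpG, hGU⟩ : ∃ G : Set X, IsOpen G ∧ p ∈ G ∧ closure G ⊆ U := by
    obtain ⟨V, hV1, hV2, hV3⟩ := normal_exists_closure_subset (isClosed_singleton (x := p)) hU
      (Set.singleton_subset_iff.2 hpU)
    exact ⟨V, hV1, hV2 rfl, hV3⟩
  apply hp.2
  refine ⟨hp.1, G, hG, hpG, ?_⟩
  have hsubT : ∀ y ∈ K ∩ closure G, y ≠ p → y ∈ T := by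
    intro y hy hyp
    by_contra hyT
    have : y ∈ U ∩ (K \ T) := ⟨hGU hy.2, hy.1, hyT⟩
    rw [hUp] at this
    exact hyp this
  intro C hC hCc
  by_cases hpC : p ∈ C
  · refine SCW_cons hpC ?_
    intro O' hO' hpO'
    refine hclaim (C \ O') (hCc.sdiff hO') ?_
    intro y hy
    refine hsubT y (hC hy.1) ?_
    rintro rfl
    exact hy.2 hpO'
  · refine hclaim C hCc ?_
    intro y hy
    refine hsubT y (hC hy) ?_
    rintro rfl
    exact hpC hy

end Pool.Agent.Work.MP_f3e7a9_wc
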