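import Pool.Agent.Work.MP_f3e7a9_wc.Interface

/-! Block SIG: countably many locally finite open families separate. -/

namespace Pool.Agent.Work.MP_f3e7a9_wc

open Set Cardinal Topology

theorem SIG_union {X : Type} [TopologicalSpace X] {I : Type 1} {A B : I → Set X} (hA : LocallyFinite A)
    (hB : LocallyFinite B) : LocallyFinite fun i => A i ∪ B i := by
  intro x
  obtain ⟨U, hU, hUf⟩ := hA x
  obtain ⟨V, hV, hVf⟩ := hB x
  refine ⟨U ∩ V, Filter.inter_mem hU hV, (hUf.union hVf).subset ?_⟩
  rintro i ⟨y, hy | hy, hyU, hyV⟩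
  · exact Or.inl ⟨y, hy, hyU⟩
  · exact Or.inr ⟨y, hy, hyV⟩

theorem SIG_fin {X : Type} [TopologicalSpace X] {I : Type 1} (O : ℕ → I → Set X)
    (hO : ∀ n, LocallyFinite (O n)) (M : ℕ) :
    LocallyFinite fun i => ⋃ n ∈ Finset.range M, O n i := by
  induction M with
  | zero =>
    intro x
    refine ⟨Set.univ, Filter.univ_mem, ?_⟩
    simp
  | succ M ih =>
    refine (SIG_union ih (hO M)).subset ?_
    intro i y hy
    simp only [Set.mem_iUnion, Finset.mem_range, exists_prop] at hy
    obtain ⟨n, hn, hyn⟩ := hy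
    rcases Nat.lt_succ_iff_lt_or_eq.1 hn with h | h
    · left
      simp only [Set.mem_iUnion, Finset.mem_range, exists_prop]
      exact ⟨n, h, hyn⟩
    · right
      rw [← h]
      exact hyn

theorem p_SIG : Stmt_SIG := by
  classical
  intro X _ _ I Y hYc hYf hYd O N hOo hOf hcov
  have hF : ∀ i, IsClosed (⋃ j : {j : I // j ≠ i}, Y j.1) := by
    intro i
    exact (hYf.comp_injective Subtype.val_injective).isClosed_iUnion (fun j => hYc j.1)
  have hVo : ∀ i, IsOpen (⋃ n ∈ Finset.range (N i), O n i) := by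
    intro i
    exact isOpen_biUnion fun n _ => hOo n i
  have hG : ∀ i, ∃ G : Set X, IsOpen G ∧ Y i ⊆ G ∧
      closure G ⊆ (⋃ n ∈ Finset.range (N i), O n i) \ (⋃ j : {j : I // j ≠ i}, Y j.1) := by
    intro i
    refine normal_exists_closure_subset (hYc i) ((hVo i).sdiff (hF i)) ?_
    intro y hy
    refine ⟨hcov i hy, ?_⟩
    intro hcon
    rw [Set.mem_iUnion] at hcon
    obtain ⟨j, hj⟩ := hcon
    exact Set.disjoint_left.1 (hYd j.2) hj hy
  choose G hGo hYG hGc using hG
  let H : I → I → Set X := fun i j => if j ≠ i ∧ N j ≤ N i then G j else ∅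
  have hH : ∀ i, LocallyFinite (H i) := by
    intro i
    refine (SIG_fin O hOf (N i)).subset ?_
    intro j y hy
    simp only [H] at hy
    split_ifs at hy with hc
    · have h1 := (hGc j (subset_closure hy)).1
      simp only [Set.mem_iUnion, Finset.mem_range, exists_prop] at h1 ⊢
      obtain ⟨n, hn, hyn⟩ := h1
      exact ⟨n, lt_of_lt_of_le hn hc.2, hyn⟩
    · exact absurd hy (Set.notMem_empty y)
  have hR : ∀ i, IsClosed (⋃ j, closure (H i j)) := fun i =>
    (hH i).closure.isClosed_iUnion fun _ => isClosed_closure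
  refine ⟨fun i => G i \ ⋃ j, closure (H i j), fun i => (hGo i).sdiff (hR i), ?_, ?_⟩
  · intro i y hy
    refine ⟨hYG i hy, ?_⟩
    intro hcon
    rw [Set.mem_iUnion] at hcon
    obtain ⟨j, hj⟩ := hcon
    simp only [H] at hj
    split_ifs at hj with hc
    · apply (hGc j hj).2
      rw [Set.mem_iUnion]
      exact ⟨⟨i, hc.1.symm⟩, hy⟩
    · rw [closure_empty] at hj
      exact hj
  · have key : ∀ i j, i ≠ j → N j ≤ N i →
        Disjoint (G i \ ⋃ j, closure (H i j)) (G j \ ⋃ k, closure (H j k)) := by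
      intro i j hij hN
      rw [Set.disjoint_left]
      rintro y ⟨_, hy2⟩ ⟨hy3, _⟩
      apply hy2
      rw [Set.mem_iUnion]
      refine ⟨j, subset_closure ?_⟩
      simp only [H]
      rw [if_pos ⟨hij.symm, hN⟩]
      exact hy3
    intro i j hij
    rcases le_total (N j) (N i) with h | h
    · exact key i j hij h
    · exact (key j i hij.symm h).symm

end Pool.Agent.Work.MP_f3e7a9_wc
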