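import Pool.Agent.Work.MP_f3e7a9_wc.Interface

/-!
Block SPF: scattered neighbourhoods.
-/

namespace Pool.Agent.Work.MP_f3e7a9_wc

open Set Cardinal Topology

theorem p_SPF (hSCW : Stmt_SCW) (hEXP : Stmt_EXP) (hLEM : Stmt_LEM) : Stmt_SPF := by
  intro κ X _ _ hCW D K hK E hED hcard Y hY hlf hdis
  classical
  have hI : #(ULift.{1} ↥E) < Cardinal.lift.{1} κ := by
    rw [Cardinal.mk_uLift]
    exact Cardinal.lift_lt.2 hcard
  have hlf' : LocallyFinite (fun i : ULift.{1} ↥E => Y i.down) :=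
    hlf.comp_injective ULift.down_injective
  have hdis' : Pairwise (Function.onFun Disjoint (fun i : ULift.{1} ↥E => Y i.down)) := by
    intro i j hij
    refine hdis i.down.2 j.down.2 fun h => hij ?_
    exact ULift.down_injective (Subtype.ext h)
  obtain ⟨W, hW1, hW2, hW3⟩ := hLEM X (ULift.{1} ↥E) (fun i => Y i.down)
    (fun i => (hY i.down i.down.2).1.isClosed) hlf' hdis'
    (fun i => hSCW X (Y i.down) (hY i.down i.down.2).1 fun S hS hne =>
      (hK i.down (hED i.down.2)).2 S (hS.trans (hY i.down i.down.2).2) hne)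
    (fun J x hx => by
      obtain ⟨O, hO1, hO2, hO3, -⟩ := hEXP κ X hCW (ULift.{1} ↥E) hI (fun i => Y i.down)
        hlf' hdis' J x hx
      exact ⟨O, hO1, hO2, hO3⟩)
  refine ⟨fun x => if h : x ∈ E then W ⟨⟨x, h⟩⟩ else ∅, ?_, ?_⟩
  · intro x hx
    simp only [dif_pos hx]
    exact ⟨hW1 _, hW2 ⟨⟨x, hx⟩⟩⟩
  · intro x hx y hy hxy
    simp only [Function.onFun, dif_pos hx, dif_pos hy]
    refine hW3 fun h => hxy ?_
    have := congrArg (fun i : ULift.{1} ↥E => (i.down : X)) h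
    exact this

end Pool.Agent.Work.MP_f3e7a9_wc
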