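import Pool.Agent.Work.MP_f3e7a9_wc.Interface2

/-!
The main theorem from the blocks.
-/

namespace Pool.Agent.Work.MP_f3e7a9_wc

open Set Cardinal Topology

/-- `D` is separated: its points have disjoint open neighbourhoods. -/
def Sepd {X : Type} [TopologicalSpace X] (D : Set X) : Prop :=
  ∃ W : X → Set X, (∀ x ∈ D, IsOpen (W x) ∧ x ∈ W x) ∧ D.PairwiseDisjoint W

theorem charLe_mono {X : Type} [TopologicalSpace X] {μ ν : Cardinal.{0}} (h : μ ≤ ν) {H : Set X}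
    (hH : CharLe μ H) : CharLe ν H := by
  obtain ⟨N, h1, h2⟩ := hH
  exact ⟨N, h1.trans h, h2⟩

theorem main_type (hN : Stmt_NRM) (hM : Stmt_MNA2) (hS : Stmt_SPF) (κ : Cardinal.{0})
    (h0 : ℵ₀ < κ) (hr : κ.IsRegular) (hW : WCpt κ) (X : Type) [TopologicalSpace X] [T4Space X]
    (D : Set X) (hD : IsClosed D) (hdis : DiscreteTopology ↥D) (hle : #↥D ≤ κ)
    (hchar : ∀ x ∈ D, ∃ N : Set (Set X), #↥N ≤ κ ∧ (nhds x).HasBasis (fun s => s ∈ N) id)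
    (μ : Cardinal.{0}) (hμ : μ < κ) (U : Set X) (hU : IsOpen U) (hDU : D ⊆ U) (H : X → Set X)
    (hH : ∀ p ∈ U, IsCompact (H p) ∧ p ∈ H p ∧ CharLe μ (H p))
    (h : SepFam κ X D H ∨ (CW κ X ∧ ∀ x ∈ D, Scat (H x))) : Sepd D := by
  have hsep : SepFam κ X D H := by
    rcases h with h | ⟨h1, h2⟩
    · exact h
    · exact hS κ X h1 D H fun x hx => ⟨(hH x (hDU hx)).1, h2 x hx⟩
  exact hM κ h0 hr (hN κ h0 hr hW) (max μ ℵ₀) (max_lt hμ h0) (le_max_right _ _) X D hD hdis hle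
    hchar U hU hDU H (fun p hp => ⟨(hH p hp).1, (hH p hp).2.1,
      charLe_mono (le_max_left _ _) (hH p hp).2.2⟩) hsep

theorem main_mixed (hN : Stmt_NRM) (hM : Stmt_MNA2) (hS : Stmt_SPF) (hK : Stmt_KH)
    (κ : Cardinal.{0})
    (h0 : ℵ₀ < κ) (hr : κ.IsRegular) (hW : WCpt κ) (X : Type) [TopologicalSpace X] [T4Space X]
    (D : Set X) (hD : IsClosed D) (hdis : DiscreteTopology ↥D) (hle : #↥D ≤ κ)
    (hchar : ∀ x ∈ D, ∃ N : Set (Set X), #↥N ≤ κ ∧ (nhds x).HasBasis (fun s => s ∈ N) id)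
    (μ : Cardinal.{0}) (hμ : μ < κ) (U : Set X) (hU : IsOpen U) (hDU : D ⊆ U) (H : X → Set X)
    (hH : ∀ p ∈ U, IsCompact (H p) ∧ p ∈ H p ∧ (CharLe μ (H p) ∨ H p ∈ nhds p))
    (h : SepFam κ X D H ∨ (CW κ X ∧ ∀ x ∈ D, Scat (H x))) : Sepd D := by
  classical
  have hex : ∀ p : X, ∃ H' : Set X, p ∈ U →
      ((IsCompact H' ∧ p ∈ H' ∧ CharLe (max μ ℵ₀) H') ∧ H' ⊆ H p) := by
    intro p
    by_cases hp : p ∈ U
    · obtain ⟨h1, h2, h3⟩ := hH p hp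
      rcases h3 with h3 | h3
      · exact ⟨H p, fun _ => ⟨⟨h1, h2, charLe_mono (le_max_left _ _) h3⟩, subset_rfl⟩⟩
      · obtain ⟨H', h4, h5, h6, h7⟩ := hK X (H p) p h1 (mem_interior_iff_mem_nhds.2 h3)
        exact ⟨H', fun _ => ⟨⟨h4, h5, charLe_mono (le_max_right _ _) h7⟩, h6⟩⟩
    · exact ⟨∅, fun h => absurd h hp⟩
  choose H' hH' using hex
  refine main_type hN hM hS κ h0 hr hW X D hD hdis hle hchar (max μ ℵ₀) (max_lt hμ h0)
    U hU hDU H' (fun p hp => (hH' p hp).1) ?_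
  rcases h with h | ⟨h1, h2⟩
  · left
    intro E hE hcE Y hY hlf hd
    exact h E hE hcE Y (fun x hx => ⟨(hY x hx).1, (hY x hx).2.trans
      (hH' x (hDU (hE hx))).2⟩) hlf hd
  · right
    exact ⟨h1, fun x hx S hS hne => h2 x hx S (hS.trans (hH' x (hDU hx)).2) hne⟩

end Pool.Agent.Work.MP_f3e7a9_wc
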