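import Pool.Agent.Work.MP_f3e7a9_wc.Interface

namespace Pool.Agent.Work.MP_f3e7a9_wc

open Set Cardinal Topology
open Pool.Agent.Work.MP_f3e7a9_gt (IsClubIn Cl exists_bound card_Iic_lt)

theorem p_CDF (hLOF : Stmt_LOF) : Stmt_CDF := by
  intro κ X _ u K' V g hp hV δ hδ hU
  have hsub : ∀ ε < δ, ∀ β < ε, (K' β ∩ ⋂ ξ ∈ Iio δ, closure (u β ξ)) ⊆ V ε β := by
    intro ε hε β hβ x hx
    obtain ⟨ξ, hξ, h⟩ := (hV ε (hε.trans hδ.1)).2.2 β hβ
    exact h (mem_iInter₂.1 hx.2 ξ (hξ.trans (hδ.2.2 ε hε)))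
  refine ⟨?_, ?_⟩
  · apply hLOF
    · intro p
      obtain ⟨G, h1, h2, h3⟩ := hp p
      refine ⟨G, h1, h2, h3.imp_right ?_⟩
      intro h i
      exact (h i (lt_trans i.2 hδ.1)).mono_left inter_subset_left
    · intro s hs
      obtain ⟨ε, hε, hs'⟩ := hU (fun n => s n) (fun n => (s n).2)
      have h1 := (hV ε (hε.trans hδ.1)).1
      have hinj : Function.Injective (fun n => (⟨s n, hs' n⟩ : Iio ε)) := by
        intro a b hab
        exact hs (Subtype.ext (congrArg (fun t : Iio ε => (t : Ordinal.{0})) hab))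
      have h2 := h1.comp_injective hinj
      exact h2.subset (fun n => hsub ε hε _ (hs' n))
  · intro β hβ γ hγ hne
    have hε : Order.succ (max β γ) < δ := hδ.2.1.succ_lt (max_lt hβ hγ)
    have hb : β < Order.succ (max β γ) := Order.lt_succ_of_le (le_max_left _ _)
    have hc : γ < Order.succ (max β γ) := Order.lt_succ_of_le (le_max_right _ _)
    exact Disjoint.mono (hsub _ hε β hb) (hsub _ hε γ hc)
      ((hV _ (hε.trans hδ.1)).2.1 β hb γ hc hne)

end Pool.Agent.Work.MP_f3e7a9_wc
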