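import Pool.Agent.Work.MP_f3e7a9_wc.Interface

/-!
The core theorem.
-/

namespace Pool.Agent.Work.MP_f3e7a9_wc

open Set Cardinal Topology
open Pool.Agent.Work.MP_f3e7a9_gt (IsClubIn Cl exists_bound card_Iic_lt nat_lt_of)

/-- points of a closed discrete family are locally finite. -/
theorem COR_lf {X : Type} [TopologicalSpace X] (d : Ordinal.{0} → X) (κ : Cardinal.{0})
    (hd : InjOn d (Iio κ.ord)) (hcl : ∀ S ⊆ Iio κ.ord, IsClosed (d '' S)) (ε : Ordinal.{0})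
    (hε : ε < κ.ord) : LocallyFinite fun β : Iio ε => ({d β.1} : Set X) := by
  intro p
  by_cases hp : p ∈ d '' Iio ε
  · obtain ⟨β, hβ, rfl⟩ := hp
    have h1 : IsClosed (d '' (Iio ε \ {β})) :=
      hcl _ (sdiff_subset.trans (Iio_subset_Iio hε.le))
    refine ⟨(d '' (Iio ε \ {β}))ᶜ, h1.isOpen_compl.mem_nhds ?_, ?_⟩
    · rintro ⟨γ, hγ, h⟩
      exact hγ.2 (hd (lt_trans (mem_Iio.1 hγ.1) hε) (lt_trans (mem_Iio.1 hβ) hε) h)
    · refine (Set.finite_singleton (⟨β, hβ⟩ : Iio ε)).subset ?_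
      rintro γ ⟨x, hx1, hx2⟩
      rw [mem_singleton_iff] at hx1
      rw [mem_singleton_iff]
      by_contra hne
      apply hx2
      refine ⟨γ.1, ⟨γ.2, fun h => hne (Subtype.ext h)⟩, hx1.symm⟩
  · have h1 : IsClosed (d '' (Iio ε)) := hcl _ (Iio_subset_Iio hε.le)
    refine ⟨(d '' (Iio ε))ᶜ, h1.isOpen_compl.mem_nhds hp, ?_⟩
    refine Set.finite_empty.subset ?_
    rintro γ ⟨x, hx1, hx2⟩
    rw [mem_singleton_iff] at hx1
    exact absurd ⟨γ.1, γ.2, hx1.symm⟩ hx2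

theorem p_COR (h1 : Stmt_RED) (h2 : Stmt_CLO) (h3 : Stmt_DRG) (h4 : Stmt_CDF) (h5 : Stmt_DIR)
    (h6 : Stmt_REF) : Stmt_COR := by
  intro κ h0 hr hN X _ _ d u K hd hcl huo hub hK hsep
  classical
  obtain ⟨K', hK', hpt⟩ := h1 κ X d K (hcl _ subset_rfl) hK
  have hpts : ∀ ε < κ.ord, ∃ W : Ordinal.{0} → Set X, (∀ β < ε, IsOpen (W β) ∧ d β ∈ W β) ∧
      ∀ β < ε, ∀ γ < ε, β ≠ γ → Disjoint (W β) (W γ) := by
    intro ε hε
    obtain ⟨W, hW1, hW2⟩ := hsep ε hε (fun β => {d β})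
      (fun β hβ => ⟨isCompact_singleton, singleton_subset_iff.2
        (interior_subset (hK β (hβ.trans hε)).2)⟩)
      (COR_lf d κ hd hcl ε hε)
      (fun β hβ γ hγ hne => disjoint_singleton.2 fun h => hne (hd (hβ.trans hε) (hγ.trans hε) h))
    exact ⟨W, fun β hβ => ⟨(hW1 β hβ).1, singleton_subset_iff.1 (hW1 β hβ).2⟩, hW2⟩
  obtain ⟨V, g1, hg1, hV⟩ := h2 κ h0 hr X d u hd hcl hub hpts
  obtain ⟨g2, hg2, hdr⟩ := h3 κ h0 hr X d u huo hub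
  obtain ⟨g, hgdef⟩ : ∃ g : Ordinal.{0} → Ordinal.{0}, g = fun x => max (g1 x) (g2 x) := ⟨_, rfl⟩
  have hg : ∀ α < κ.ord, g α < κ.ord := by
    intro α hα
    rw [hgdef]
    exact max_lt (hg1 α hα) (hg2 α hα)
  have hCl1 : ∀ δ ∈ Cl κ g, δ ∈ Cl κ g1 := by
    intro δ hδ
    refine ⟨hδ.1, hδ.2.1, fun x hx => lt_of_le_of_lt ?_ (hδ.2.2 x hx)⟩
    rw [hgdef]
    exact le_max_left _ _
  have hCl2 : ∀ δ ∈ Cl κ g, ∀ x < δ, g2 x < δ := by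
    intro δ hδ x hx
    refine lt_of_le_of_lt ?_ (hδ.2.2 x hx)
    rw [hgdef]
    exact le_max_right _ _
  -- the compact sets at a closure point
  have hW : ∀ δ : Ordinal.{0}, ∃ W : Ordinal.{0} → Set X, δ ∈ Cl κ g → Unc δ →
      (∀ β < δ, IsOpen (W β) ∧ (K' β ∩ ⋂ ξ ∈ Iio δ, closure (u β ξ)) ⊆ W β) ∧
        ∀ β < δ, ∀ γ < δ, β ≠ γ → Disjoint (W β) (W γ) := by
    intro δ
    by_cases hδ : δ ∈ Cl κ g ∧ Unc δ
    · obtain ⟨h7, h8⟩ := h4 κ X u K' V g1 hpt hV δ (hCl1 δ hδ.1) hδ.2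
      obtain ⟨W, hW1, hW2⟩ := hsep δ hδ.1.1 (fun β => K' β ∩ ⋂ ξ ∈ Iio δ, closure (u β ξ))
        (fun β hβ => ⟨(hK' β (hβ.trans hδ.1.1)).1.inter_right
          (isClosed_biInter fun ξ _ => isClosed_closure),
          inter_subset_left.trans (hK' β (hβ.trans hδ.1.1)).2.2⟩) h7 h8
      exact ⟨W, fun _ _ => ⟨hW1, hW2⟩⟩
    · exact ⟨fun _ => ∅, fun h h' => absurd ⟨h, h'⟩ hδ⟩
  choose W hW using hW
  have hf : ∀ δ β : Ordinal.{0}, ∃ ξ, δ ∈ Cl κ g → Unc δ → β < δ →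
      (ξ < δ ∧ K' β ∩ closure (u β ξ) ⊆ W δ β) := by
    intro δ β
    by_cases h : δ ∈ Cl κ g ∧ Unc δ ∧ β < δ
    · obtain ⟨hδ, hU, hβ⟩ := h
      have h0δ : (0 : Ordinal.{0}) < δ := lt_of_le_of_lt zero_le hβ
      obtain ⟨ξ, hξ, hξ'⟩ := h5 X δ (u β) (K' β) (W δ β) h0δ (hK' β (hβ.trans hδ.1)).1
        ((hW δ hδ hU).1 β hβ).1 ((hW δ hδ hU).1 β hβ).2 (by
          intro ξ hξ η hη
          have hε : max β (max ξ η) < δ := max_lt hβ (max_lt hξ hη)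
          obtain ⟨ζ, hζ, hζ'⟩ := hdr (max β (max ξ η)) (hε.trans hδ.1) β (le_max_left _ _) ξ
            ((le_max_left _ _).trans (le_max_right _ _)) η
            ((le_max_right _ _).trans (le_max_right _ _))
          exact ⟨ζ, hζ.trans (hCl2 δ hδ _ hε), hζ'⟩)
      exact ⟨ξ, fun _ _ _ => ⟨hξ, hξ'⟩⟩
    · exact ⟨0, fun h1 h2 h3 => absurd ⟨h1, h2, h3⟩ h⟩
  choose f hf using hf
  obtain ⟨F, hF⟩ := h6 κ h0 hr hN g hg f (fun δ hδ hU β hβ => (hf δ β hδ hU hβ).1)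
  refine ⟨fun β => interior (K' β) ∩ u β (F β), fun β hβ => ?_, fun β hβ γ hγ hne => ?_⟩
  · obtain ⟨δ, hδ, hU, hβδ, -, h8, -⟩ := hF β hβ β hβ
    have h9 : F β < κ.ord := by
      rw [← h8]
      exact (hf δ β hδ hU hβδ).1.trans hδ.1
    exact ⟨isOpen_interior.inter (huo β hβ _ h9).1, (hK' β hβ).2.1, (huo β hβ _ h9).2⟩
  · obtain ⟨δ, hδ, hU, hβδ, hγδ, h8, h9⟩ := hF β hβ γ hγ
    have h10 := (hf δ β hδ hU hβδ).2
    have h11 := (hf δ γ hδ hU hγδ).2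
    rw [h8] at h10
    rw [h9] at h11
    refine ((hW δ hδ hU).2 β hβδ γ hγδ hne).mono ?_ ?_
    · exact (inter_subset_inter interior_subset subset_closure).trans h10
    · exact (inter_subset_inter interior_subset subset_closure).trans h11

end Pool.Agent.Work.MP_f3e7a9_wc
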