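import Pool.Agent.Work.MP_f3e7a9_wc.Interface

namespace Pool.Agent.Work.MP_f3e7a9_wc

open Set Cardinal Topology
open Pool.Agent.Work.MP_f3e7a9_gt (IsClubIn Cl exists_bound card_Iic_lt)

theorem p_DRG : Stmt_DRG := by
  classical
  intro κ h0 hr X _ d u hu hb
  have hex : ∀ β ξ η : Ordinal.{0}, ∃ ζ : Ordinal.{0}, β < κ.ord → ξ < κ.ord → η < κ.ord →
      ζ < κ.ord ∧ u β ζ ⊆ u β ξ ∩ u β η := by
    intro β ξ η
    by_cases h : β < κ.ord ∧ ξ < κ.ord ∧ η < κ.ord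
    · obtain ⟨h1, h2, h3⟩ := h
      obtain ⟨ζ, h4, h5⟩ := hb β h1 (u β ξ ∩ u β η) ((hu β h1 ξ h2).1.inter (hu β h1 η h3).1)
        ⟨(hu β h1 ξ h2).2, (hu β h1 η h3).2⟩
      exact ⟨ζ, fun _ _ _ => ⟨h4, h5⟩⟩
    · exact ⟨0, fun h1 h2 h3 => absurd ⟨h1, h2, h3⟩ h⟩
  choose m hm using hex
  have hg : ∀ ε : Ordinal.{0}, ∃ b : Ordinal.{0}, ε < κ.ord → b < κ.ord ∧
      ∀ β ≤ ε, ∀ ξ ≤ ε, ∀ η ≤ ε, m β ξ η < b := by
    intro ε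
    by_cases hε : ε < κ.ord
    · have hk0 : ℵ₀ ≤ Cardinal.lift.{1} κ := by simpa using h0.le
      have hc := card_Iic_lt hr hε
      obtain ⟨b, hb1, hb2⟩ := exists_bound hr (ι := Iic ε × Iic ε × Iic ε)
        (by
          simp only [mk_prod, Cardinal.lift_id]
          exact mul_lt_of_lt hk0 hc (mul_lt_of_lt hk0 hc hc))
        (fun t => m t.1 t.2.1 t.2.2)
        (fun t => (hm _ _ _ (lt_of_le_of_lt t.1.2 hε) (lt_of_le_of_lt t.2.1.2 hε)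
          (lt_of_le_of_lt t.2.2.2 hε)).1)
      exact ⟨b, fun _ => ⟨hb1, fun β hβ ξ hξ η hη => hb2 (⟨β, hβ⟩, ⟨ξ, hξ⟩, ⟨η, hη⟩)⟩⟩
    · exact ⟨0, fun h => absurd h hε⟩
  choose g hg using hg
  refine ⟨g, fun α hα => (hg α hα).1, fun ε hε β hβ ξ hξ η hη => ⟨m β ξ η, (hg ε hε).2 β hβ ξ hξ η hη,
    (hm β ξ η (lt_of_le_of_lt hβ hε) (lt_of_le_of_lt hξ hε) (lt_of_le_of_lt hη hε)).2⟩⟩

end Pool.Agent.Work.MP_f3e7a9_wc
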