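import Pool.Agent.Work.MP_f3e7a9_wc.Interface

namespace Pool.Agent.Work.MP_f3e7a9_wc

open Set Cardinal Topology

theorem p_LOF : Stmt_LOF := by
  intro X _ I Y hp hs p
  obtain ⟨G, hG, hpG, h⟩ := hp p
  refine ⟨G, hG.mem_nhds hpG, ?_⟩
  rcases h with ⟨L, hL, hGL⟩ | h
  · by_contra hinf
    have hinf' : {i | (Y i ∩ G).Nonempty}.Infinite := hinf
    let s := hinf'.natEmbedding
    have h1 := hs (fun n => (s n : I)) (fun a b hab => s.injective (Subtype.ext hab))
    have h2 := h1.finite_nonempty_inter_compact hL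
    apply Set.infinite_univ (α := ℕ)
    refine h2.subset ?_
    intro n _
    obtain ⟨y, hy1, hy2⟩ := (s n).2
    exact ⟨y, hy1, hGL hy2⟩
  · have : {i | (Y i ∩ G).Nonempty} = ∅ := by
      rw [eq_empty_iff_forall_notMem]
      rintro j ⟨y, hy1, hy2⟩
      exact disjoint_left.1 (h j) hy1 hy2
    rw [this]
    exact finite_empty

end Pool.Agent.Work.MP_f3e7a9_wc
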