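import Pool.Agent.Work.MP_f3e7a9_wc.Interface

set_option autoImplicit false

/-! Block RED: reduction of the compact neighbourhoods. -/

namespace Pool.Agent.Work.MP_f3e7a9_wc

open Set Cardinal Topology

theorem p_RED : Stmt_RED := by
  intro κ X _ _ d K hcl hK
  set U : Set X := ⋃ β ∈ Iio κ.ord, interior (K β) with hU
  have hUo : IsOpen U := isOpen_biUnion fun _ _ => isOpen_interior
  have hDU : d '' Iio κ.ord ⊆ U := by
    rintro _ ⟨β, hβ, rfl⟩
    exact mem_biUnion hβ (hK β hβ).2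
  obtain ⟨G, hGo, hDG, hGU⟩ := normal_exists_closure_subset hcl hUo hDU
  refine ⟨fun β => K β ∩ closure G, ?_, ?_⟩
  · intro β hβ
    refine ⟨(hK β hβ).1.inter_right isClosed_closure, ?_, inter_subset_left⟩
    rw [interior_inter]
    refine ⟨(hK β hβ).2, ?_⟩
    exact interior_maximal subset_closure hGo (hDG ⟨β, hβ, rfl⟩)
  · intro p
    by_cases hp : p ∈ closure G
    · have hpU := hGU hp
      rw [hU, mem_iUnion₂] at hpU
      obtain ⟨γ, hγ, hpγ⟩ := hpU
      exact ⟨interior (K γ), isOpen_interior, hpγ, Or.inl ⟨K γ, (hK γ hγ).1, interior_subset⟩⟩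
    · refine ⟨(closure G)ᶜ, isClosed_closure.isOpen_compl, hp, Or.inr fun β _ => ?_⟩
      rw [Set.disjoint_left]
      intro x hx hx'
      exact hx' hx.2

end Pool.Agent.Work.MP_f3e7a9_wc
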