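import Pool.Agent.Work.MP_f3e7a9_wc.Interface

/-! Block REF: reflection. -/

namespace Pool.Agent.Work.MP_f3e7a9_wc

open Set Cardinal Topology
open Pool.Agent.Work.MP_f3e7a9_gt (IsClubIn Cl exists_bound nat_lt_of)

/-- the function at one level -/
theorem REF_R (κ : Cardinal.{0}) (g : Ordinal.{0} → Ordinal.{0}) (f : Ordinal.{0} → Ordinal.{0} → Ordinal.{0})
    (hf : ∀ δ ∈ Cl κ g, Unc δ → ∀ β < δ, f δ β < δ) (δ : Ordinal.{0}) (h3 : 3 ≤ δ) (hδ : δ < κ.ord) :
    ∃ R : Ordinal.{0} → Ordinal.{0}, (∀ i, R i < δ) ∧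
      ((R 0 = 0 ∧ δ ≤ max (g (R 1)) (Order.succ (R 1))) ∨
       (R 0 = 1 ∧ ∀ ε < δ, ∃ n : ℕ, ε ≤ R (1 + (n : Ordinal.{0}))) ∨
       (R 0 = 2 ∧ δ ∈ Cl κ g ∧ Unc δ ∧ ∀ β < δ, R (1 + β) = f δ β)) := by
  classical
  have h0 : (0 : Ordinal.{0}) < δ := lt_of_lt_of_le (by norm_num) h3
  have h1 : (1 : Ordinal.{0}) < δ := lt_of_lt_of_le (by norm_num) h3
  have h2 : (2 : Ordinal.{0}) < δ := lt_of_lt_of_le (by norm_num) h3
  by_cases hC : δ ∈ Cl κ g
  · by_cases hU : Unc δ
    · refine ⟨fun i => if i = 0 then 2 else if i - 1 < δ then f δ (i - 1) else 0, ?_, ?_⟩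
      · intro i
        dsimp only
        split_ifs with ha hb
        · exact h2
        · exact hf δ hC hU _ hb
        · exact h0
      · right; right
        refine ⟨by simp, hC, hU, ?_⟩
        intro β hβ
        have hne : (1 + β : Ordinal.{0}) ≠ 0 := by
          intro h
          have : (1 : Ordinal.{0}) ≤ 0 := by
            calc (1 : Ordinal.{0}) ≤ 1 + β := le_self_add
              _ = 0 := h
          exact absurd this (by norm_num)
        dsimp only
        rw [if_neg hne, Ordinal.add_sub_cancel, if_pos hβ]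
    · unfold Unc at hU
      push Not at hU
      obtain ⟨s, hs, hs2⟩ := hU
      refine ⟨fun i => if i = 0 then 1 else if h : ∃ n : ℕ, i = 1 + (n : Ordinal.{0}) then s h.choose else 0,
        ?_, ?_⟩
      · intro i
        dsimp only
        split_ifs with ha hb
        · exact h1
        · exact hs _
        · exact h0
      · right; left
        refine ⟨by simp, ?_⟩
        intro ε hε
        obtain ⟨n, hn⟩ := hs2 ε hε
        refine ⟨n, ?_⟩
        have hne : (1 + (n : Ordinal.{0}) : Ordinal.{0}) ≠ 0 := by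
          intro h
          have : (1 : Ordinal.{0}) ≤ 0 := by
            calc (1 : Ordinal.{0}) ≤ 1 + (n : Ordinal.{0}) := le_self_add
              _ = 0 := h
          exact absurd this (by norm_num)
        have hex : ∃ m : ℕ, (1 + (n : Ordinal.{0}) : Ordinal.{0}) = 1 + (m : Ordinal.{0}) := ⟨n, rfl⟩
        dsimp only
        rw [if_neg hne, dif_pos hex]
        have hch := hex.choose_spec
        have : n = hex.choose := by
          have h5 := congrArg (fun x => x - 1) hch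
          simp only [Ordinal.add_sub_cancel] at h5
          exact_mod_cast h5
        rw [← this]
        exact hn
  · have hex : ∃ s < δ, δ ≤ max (g s) (Order.succ s) := by
      by_contra hcon
      push Not at hcon
      apply hC
      refine ⟨hδ, ⟨?_, ?_⟩, ?_⟩
      · intro hmin
        exact absurd (hmin h0.le) (not_le.2 h0)
      · intro a hcov
        have h5 := hcon a hcov.lt
        have h6 : Order.succ a < δ := lt_of_le_of_lt (le_max_right _ _) h5
        exact hcov.2 (Order.lt_succ a) h6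
      · intro a ha
        exact lt_of_le_of_lt (le_max_left _ _) (hcon a ha)
    obtain ⟨s, hs, hs2⟩ := hex
    refine ⟨fun i => if i = 0 then 0 else s, ?_, ?_⟩
    · intro i
      dsimp only
      split_ifs
      · exact h0
      · exact hs
    · left
      refine ⟨by simp, ?_⟩
      dsimp only
      rw [if_neg (one_ne_zero)]
      exact hs2

theorem p_REF : Stmt_REF := by
  classical
  intro κ h0 hr hN g hg f hf
  have hlim := isSuccLimit_ord hr.aleph0_le
  have hω : Ordinal.omega0 < κ.ord := by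
    rw [← Cardinal.ord_aleph0]
    exact Cardinal.ord_lt_ord.2 h0
  have hnat : ∀ n : ℕ, (n : Ordinal.{0}) < κ.ord := fun n => (Ordinal.natCast_lt_omega0 n).trans hω
  have h3 : (3 : Ordinal.{0}) < κ.ord := by exact_mod_cast hnat 3
  have hadd : ∀ a < κ.ord, 1 + a < κ.ord := by
    intro a ha
    exact Ordinal.isPrincipal_add_ord hr.aleph0_le (by exact_mod_cast hnat 1) ha
  have hex : ∀ δ : Ordinal.{0}, ∃ R : Ordinal.{0} → Ordinal.{0}, 3 ≤ δ → δ < κ.ord → ((∀ i, R i < δ) ∧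
      ((R 0 = 0 ∧ δ ≤ max (g (R 1)) (Order.succ (R 1))) ∨
       (R 0 = 1 ∧ ∀ ε < δ, ∃ n : ℕ, ε ≤ R (1 + (n : Ordinal.{0}))) ∨
       (R 0 = 2 ∧ δ ∈ Cl κ g ∧ Unc δ ∧ ∀ β < δ, R (1 + β) = f δ β))) := by
    intro δ
    by_cases h : 3 ≤ δ ∧ δ < κ.ord
    · obtain ⟨R, hR⟩ := REF_R κ g f hf δ h.1 h.2
      exact ⟨R, fun _ _ => hR⟩
    · exact ⟨fun _ => 0, fun h1 h2 => absurd ⟨h1, h2⟩ h⟩
  choose R hR using hex
  obtain ⟨F, hF⟩ := hN (fun i δ => if 3 ≤ δ then R δ i else 0) (by
    intro i _ δ hδ0 hδ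
    split_ifs with h
    · exact (hR δ h hδ).1 i
    · exact hδ0)
  have hkey : ∀ ρ < κ.ord, ∃ δ, ρ ≤ δ ∧ 3 ≤ δ ∧ δ < κ.ord ∧ ∀ i < ρ, R δ i = F i := by
    intro ρ hρ
    obtain ⟨δ, h1, h2, h4⟩ := hF (max ρ 3) (max_lt hρ h3)
    have h5 : 3 ≤ δ := le_trans (le_max_right _ _) h1
    refine ⟨δ, le_trans (le_max_left _ _) h1, h5, h2, ?_⟩
    intro i hi
    have := h4 i (lt_of_lt_of_le hi (le_max_left _ _))
    rw [if_pos h5] at this
    exact this
  have hFlt : ∀ i < κ.ord, F i < κ.ord := by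
    intro i hi
    obtain ⟨δ, _, h5, h6, h7⟩ := hkey (Order.succ i) (hlim.succ_lt hi)
    rw [← h7 i (Order.lt_succ i)]
    exact lt_trans ((hR δ h5 h6).1 i) h6
  have hz : (0 : Ordinal.{0}) < κ.ord := lt_trans (by norm_num) h3
  have hone : (1 : Ordinal.{0}) < κ.ord := lt_trans (by norm_num) h3
  obtain ⟨δ0, _, hδ3, hδκ, hδF⟩ := hkey 1 hone
  have hcase : F 0 = 0 ∨ F 0 = 1 ∨ F 0 = 2 := by
    rw [← hδF 0 zero_lt_one]
    rcases (hR δ0 hδ3 hδκ).2 with h | h | h
    · exact Or.inl h.1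
    · exact Or.inr (Or.inl h.1)
    · exact Or.inr (Or.inr h.1)
  have h01 : (0 : Ordinal.{0}) ≠ 1 := by norm_num
  have h02 : (0 : Ordinal.{0}) ≠ 2 := by norm_num
  have h12 : (1 : Ordinal.{0}) ≠ 2 := by norm_num
  have hF2 : F 0 = 2 := by
    rcases hcase with h | h | h
    · exfalso
      have hF1 := hFlt 1 hone
      have hm : max (g (F 1)) (Order.succ (F 1)) < κ.ord := max_lt (hg _ hF1) (hlim.succ_lt hF1)
      obtain ⟨δ, h4, h5, h6, h7⟩ := hkey (max (Order.succ (max (g (F 1)) (Order.succ (F 1)))) 3)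
        (max_lt (hlim.succ_lt hm) h3)
      have h3' : (3 : Ordinal.{0}) ≤ max (Order.succ (max (g (F 1)) (Order.succ (F 1)))) 3 := le_max_right _ _
      have e0 : R δ 0 = F 0 := h7 0 (lt_of_lt_of_le (by norm_num) h3')
      have e1 : R δ 1 = F 1 := h7 1 (lt_of_lt_of_le (by norm_num) h3')
      rcases (hR δ h5 h6).2 with h8 | h8 | h8
      · have h9 := h8.2
        rw [e1] at h9
        have h10 : Order.succ (max (g (F 1)) (Order.succ (F 1))) ≤ δ := le_trans (le_max_left _ _) h4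
        exact absurd (lt_of_lt_of_le (Order.lt_succ _) (le_trans h10 h9)) (lt_irrefl _)
      · rw [e0, h] at h8
        exact h01 h8.1
      · rw [e0, h] at h8
        exact h02 h8.1
    · exfalso
      obtain ⟨σ, hσ, hσ2⟩ := exists_bound hr (nat_lt_of h0)
        (fun n : ULift.{1} ℕ => F (1 + (n.down : Ordinal.{0}))) (fun n => hFlt _ (hadd _ (hnat _)))
      obtain ⟨δ, h4, h5, h6, h7⟩ := hkey (max (Order.succ σ) Ordinal.omega0) (max_lt (hlim.succ_lt hσ) hω)
      have hωle : Ordinal.omega0 ≤ max (Order.succ σ) Ordinal.omega0 := le_max_right _ _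
      have e0 : R δ 0 = F 0 := h7 0 (lt_of_lt_of_le Ordinal.omega0_pos hωle)
      rcases (hR δ h5 h6).2 with h8 | h8 | h8
      · rw [e0, h] at h8
        exact h01 h8.1.symm
      · have hσδ : σ < δ := lt_of_lt_of_le (Order.lt_succ σ) (le_trans (le_max_left _ _) h4)
        obtain ⟨n, hn⟩ := h8.2 σ hσδ
        have hlt : (1 + (n : Ordinal.{0}) : Ordinal.{0}) < max (Order.succ σ) Ordinal.omega0 := by
          refine lt_of_lt_of_le ?_ hωle
          have : (1 + (n : Ordinal.{0}) : Ordinal.{0}) = ((1 + n : ℕ) : Ordinal.{0}) := by push_cast; rfl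
          rw [this]
          exact Ordinal.natCast_lt_omega0 _
        rw [h7 _ hlt] at hn
        exact absurd (lt_of_le_of_lt hn (hσ2 ⟨n⟩)) (lt_irrefl _)
      · rw [e0, h] at h8
        exact h12 h8.1
    · exact h
  refine ⟨fun β => F (1 + β), ?_⟩
  intro β hβ γ hγ
  obtain ⟨δ, h4, h5, h6, h7⟩ := hkey (max (Order.succ (1 + β)) (Order.succ (1 + γ)))
    (max_lt (hlim.succ_lt (hadd _ hβ)) (hlim.succ_lt (hadd _ hγ)))
  have hb1 : (1 + β) < max (Order.succ (1 + β)) (Order.succ (1 + γ)) :=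
    lt_of_lt_of_le (Order.lt_succ _) (le_max_left _ _)
  have hc1 : (1 + γ) < max (Order.succ (1 + β)) (Order.succ (1 + γ)) :=
    lt_of_lt_of_le (Order.lt_succ _) (le_max_right _ _)
  have hle : ∀ x : Ordinal.{0}, x ≤ 1 + x := fun x => le_add_self
  have hβδ : β < δ := lt_of_le_of_lt (hle β) (lt_of_lt_of_le hb1 h4)
  have hγδ : γ < δ := lt_of_le_of_lt (hle γ) (lt_of_lt_of_le hc1 h4)
  have e0 : R δ 0 = F 0 := h7 0 (lt_of_le_of_lt zero_le hb1)
  rcases (hR δ h5 h6).2 with h8 | h8 | h8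
  · rw [e0, hF2] at h8
    exact absurd h8.1.symm h02
  · rw [e0, hF2] at h8
    exact absurd h8.1.symm h12
  · refine ⟨δ, h8.2.1, h8.2.2.1, hβδ, hγδ, ?_, ?_⟩
    · rw [← h8.2.2.2 β hβδ]
      exact h7 _ hb1
    · rw [← h8.2.2.2 γ hγδ]
      exact h7 _ hc1

end Pool.Agent.Work.MP_f3e7a9_wc
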