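import Pool.Agent.Work.MP_f3e7a9_gt.Base

/-!
Closed discrete sets with compact scattered neighbourhoods in normal spaces, at a weakly compact
cardinal: definitions and the statements of the blocks. Every block is independent of the others
(blocks which are used are hypotheses of the theorem which proves a block).
-/

namespace Pool.Agent.Work.MP_f3e7a9_wc

open Set Cardinal Topology
open Pool.Agent.Work.MP_f3e7a9_gt (IsClubIn Cl)

/-- `K` is scattered: every nonempty subset has an isolated point. -/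
def Scat {X : Type} [TopologicalSpace X] (K : Set X) : Prop :=
  ∀ S ⊆ K, S.Nonempty → ∃ x ∈ S, ∃ U : Set X, IsOpen U ∧ U ∩ S = {x}

/-- `κ` is ineffable. -/
def Ineff (κ : Cardinal.{0}) : Prop :=
  ∀ A : Ordinal.{0} → Set Ordinal.{0}, (∀ α < κ.ord, A α ⊆ Iio α) →
    ∃ B : Set Ordinal.{0}, B ⊆ Iio κ.ord ∧ ∀ C : Set Ordinal.{0}, IsClubIn κ C →
      ∃ α ∈ C, B ∩ Iio α = A α

/-- `κ` is weakly compact: for all sets `A ξ` (`ξ < κ`) there is an unbounded `T ⊆ κ` which is,
for each `ξ < κ`, up to a bounded set contained in `A ξ` or disjoint from `A ξ`. -/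
def WCpt (κ : Cardinal.{0}) : Prop :=
  ∀ A : Ordinal.{0} → Set Ordinal.{0}, ∃ T ⊆ Iio κ.ord, (∀ β < κ.ord, ∃ γ ∈ T, β ≤ γ) ∧
    ∀ ξ < κ.ord, ∃ ρ < κ.ord, (∀ γ ∈ T, ρ ≤ γ → γ ∈ A ξ) ∨ (∀ γ ∈ T, ρ ≤ γ → γ ∉ A ξ)

/-- closed discrete sets of fewer than `κ` points are separated. -/
def CW (κ : Cardinal.{0}) (X : Type) [TopologicalSpace X] : Prop :=
  ∀ D : Set X, IsClosed D → DiscreteTopology ↥D → #↥D < κ →
    ∃ U : X → Set X, (∀ d ∈ D, IsOpen (U d) ∧ d ∈ U d) ∧ D.PairwiseDisjoint U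

/-- uncountable cofinality (for limit ordinals `δ`): countable subsets of `δ` are bounded. -/
def Unc (δ : Ordinal.{0}) : Prop :=
  ∀ s : ℕ → Ordinal.{0}, (∀ n, s n < δ) → ∃ ε < δ, ∀ n, s n < ε

/-- a strategy tree: either the set is empty, or one point is chosen such that for each open
neighbourhood `O` of the point there is a strategy tree for what is left after deletion of `O`. -/
inductive WinT {X : Type} [TopologicalSpace X] : Set X → Type
  | nil : WinT ∅
  | cons (Y : Set X) (x : X) (hx : x ∈ Y)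
      (f : ∀ O : Set X, IsOpen O → x ∈ O → WinT (Y \ O)) : WinT Y

/-! ### Topology -/

/-- BLOCK SCW (80 lines). Compact scattered sets have strategy trees.

Proof. Put `P C := Nonempty (WinT C)`. `P ∅`, and if `x ∈ C` and `P (C \ O)` for all open `O ∋ x`
then `P C` (choice). Call a set `Z` good if `P C` for all closed `C ⊆ Z`.
(i) If `Z1`, `Z2` are closed and good, so is `Z1 ∪ Z2`: show for every strategy tree `t : WinT A`,
by induction on `t`: for every closed `C ⊆ Z1 ∪ Z2` with `C ∩ Z1 = A`, `P C`. If `A = ∅` then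
`C ⊆ Z2`, so `P C`. If `t = cons A x hx f` then for every open `O ∋ x` we have
`(C \ O) ∩ Z1 = A \ O`, so `P (C \ O)` by induction; hence `P C` with the point `x`.
By induction finite unions of closed good sets are good; a subset of a good set is good.
(ii) Let `T` be the set of all `x` in `K` for which some open `O ∋ x` has `K ∩ closure O` good. By
(i) every compact (= closed) `C ⊆ K` with `C ⊆ T` is contained in a good set, so `P C`. If `K ⊆ T`
we are done. Otherwise `K \ T` is nonempty, so it has an isolated point `p`: `G ∩ (K \ T) = {p}`,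
`G` open. By regularity there is an open `O ∋ p` with `closure O ⊆ G`. We show that
`K ∩ closure O` is good, so `p ∈ T`, a contradiction: let `C ⊆ K ∩ closure O` be closed. If
`p ∉ C` then `C ⊆ T`, so `P C`. If `p ∈ C` then for every open `O' ∋ p` the set `C \ O'` is closed
and `⊆ T`, so `P (C \ O')`; hence `P C` with the point `p`. -/
def Stmt_SCW : Prop :=
  ∀ (X : Type) [TopologicalSpace X] [T4Space X] (K : Set X), IsCompact K → Scat K →
    Nonempty (WinT K)

/-- BLOCK LFE (30 lines). From a disjoint open expansion to a locally finite open expansion.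

Proof. `⋃ i, Y i` is closed (`LocallyFinite.isClosed_iUnion`), contained in the open `⋃ i, W i`. By
normality (`normal_exists_closure_subset`) there is an open `G` with
`⋃ Y i ⊆ G ⊆ closure G ⊆ ⋃ W i`. Put `O i = W i ∩ G`. If `p ∉ closure G`, the open set
`(closure G)ᶜ` misses all `O i`; if `p ∈ closure G`, then `p ∈ W i` for some `i` and the open set
`W i` misses all `O j`, `j ≠ i`. -/
def Stmt_LFE : Prop :=
  ∀ (X : Type) [TopologicalSpace X] [T4Space X] (I : Type 1) (Y W : I → Set X),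
    (∀ i, IsClosed (Y i)) → LocallyFinite Y → (∀ i, IsOpen (W i)) → (∀ i, Y i ⊆ W i) →
    Pairwise (Function.onFun Disjoint W) →
    ∃ O : I → Set X, (∀ i, IsOpen (O i)) ∧ (∀ i, Y i ⊆ O i) ∧ (∀ i, O i ⊆ W i) ∧ LocallyFinite O

/-- BLOCK EXP (60 lines, uses LFE). Points chosen from a locally finite disjoint family have
disjoint locally finite open neighbourhoods.

Proof. Let `Z i = {x i}` for `i ∈ J` and `∅` otherwise: locally finite (`LocallyFinite.subset`)
and closed. `E = ⋃ i, Z i = x '' J` is closed, and every subset of `E` is closed too (same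
argument), so `E` is discrete (`isClosed_discrete` style: `discreteTopology_iff` via closed
subsets). `x` is injective on `J` since the `Y i` are disjoint. The cardinality: lift of `#E` is
`≤ #I < lift κ` (`Cardinal.mk_image_le_lift` / `mk_range_le_lift`). Take `U` from `CW` and
`W i = U (x i)` for `i ∈ J`, `∅` otherwise, then apply LFE to `Z`, `W`. -/
def Stmt_EXP : Prop :=
  ∀ (κ : Cardinal.{0}) (X : Type) [TopologicalSpace X] [T4Space X], CW κ X →
    ∀ (I : Type 1), #I < Cardinal.lift.{1} κ → ∀ Y : I → Set X, LocallyFinite Y →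
    Pairwise (Function.onFun Disjoint Y) → ∀ (J : Set I) (x : I → X), (∀ i ∈ J, x i ∈ Y i) →
    ∃ O : I → Set X, (∀ i, IsOpen (O i)) ∧ (∀ i ∈ J, x i ∈ O i) ∧ LocallyFinite O ∧
      Pairwise (Function.onFun Disjoint O)

/-- BLOCK SIG (70 lines). Countably many locally finite open families separate.

Proof. For each `i` the set `F i = ⋃ j ≠ i, Y j` is closed (locally finite), disjoint from `Y i`;
so by normality there is an open `G i` with `Y i ⊆ G i`, `closure (G i) ⊆ V i \ F i` where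
`V i = ⋃ n < N i, O n i`. For every `M` the family `(G j)_{j : N j ≤ M}` (put `∅` for the other
`j`) is locally finite, since `G j ⊆ ⋃ n < M, O n j` and a finite union of locally finite families
is locally finite (induction on `M`); so the union of the closures of its members `j ≠ i`,
`R i = ⋃ {closure (G j) | j ≠ i, N j ≤ N i}`, is closed. Put `W i = G i \ R i`. `Y i ⊆ W i` because
`closure (G j)` misses `Y i` for `j ≠ i`. For `i ≠ j`, say `N j ≤ N i`: `W i` misses
`closure (G j) ⊇ W j`. -/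
def Stmt_SIG : Prop :=
  ∀ (X : Type) [TopologicalSpace X] [T4Space X] (I : Type 1) (Y : I → Set X),
    (∀ i, IsClosed (Y i)) → LocallyFinite Y → Pairwise (Function.onFun Disjoint Y) →
    ∀ (O : ℕ → I → Set X) (N : I → ℕ), (∀ n i, IsOpen (O n i)) → (∀ n, LocallyFinite (O n)) →
    (∀ i, Y i ⊆ ⋃ n ∈ Finset.range (N i), O n i) →
    ∃ W : I → Set X, (∀ i, IsOpen (W i)) ∧ (∀ i, Y i ⊆ W i) ∧
      Pairwise (Function.onFun Disjoint W)

/-- BLOCK LEM (90 lines, uses SIG). A locally finite disjoint family of closed sets with strategy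
trees has a disjoint open expansion, if families of points do.

Proof. A state is `σ : ∀ i : I, (Z : Set X) × WinT Z`. Given a state `σ` with `(σ i).1 ⊆ Y i` for
all `i`, let `J = {i | (σ i).2 is a cons}`, let `x i` be the chosen point for `i ∈ J`, and take
`O = O_σ` from the hypothesis; the next state is `(Y' \ O i, f (O i) _ _)` at `i ∈ J` (where
`(σ i).2 = cons Y' x hx f`) and `σ i` at the other `i`. (Use `Classical.choose` with a dummy
if `σ` is not contained in `Y`; it is convenient to define the step through a function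
`nx : (Z : Set X) × WinT Z → Set X → (Z : Set X) × WinT Z`, `nx ⟨_, nil⟩ O = ⟨∅, nil⟩`,
`nx ⟨Y, cons Y x hx f⟩ O = if h : IsOpen O ∧ x ∈ O then ⟨Y \ O, f O h.1 h.2⟩ else ⟨∅, nil⟩`.)
Let `σ n` be the `n`-th state, `σ 0 i = ⟨Y i, tree⟩`, and `O n = O_{σ n}`. Then
`(σ (n+1) i).1 = (σ n i).1 \ O n i` on `J` and for each `i` there is `m` with `(σ m i).1 = ∅`: by
induction on the tree, for all `t : WinT Z` and `n` with `σ n i = ⟨Z, t⟩` there is `m ≥ n` with
`(σ m i).1 = ∅`. Hence `Y i ⊆ ⋃ n < N i, O n i` with `N i = m`. Apply SIG. -/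
def Stmt_LEM : Prop :=
  ∀ (X : Type) [TopologicalSpace X] [T4Space X] (I : Type 1) (Y : I → Set X),
    (∀ i, IsClosed (Y i)) → LocallyFinite Y → Pairwise (Function.onFun Disjoint Y) →
    (∀ i, Nonempty (WinT (Y i))) →
    (∀ (J : Set I) (x : I → X), (∀ i ∈ J, x i ∈ Y i) →
      ∃ O : I → Set X, (∀ i, IsOpen (O i)) ∧ (∀ i ∈ J, x i ∈ O i) ∧ LocallyFinite O) →
    ∃ W : I → Set X, (∀ i, IsOpen (W i)) ∧ (∀ i, Y i ⊆ W i) ∧
      Pairwise (Function.onFun Disjoint W)

/-- BLOCK LOF (25 lines). Local finiteness is decided by countable subfamilies.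

Proof. Let `p`; take the open `G ∋ p`. If `G` misses all `Y i`, it is the neighbourhood. Otherwise
`G ⊆ L` compact. If `{i | (Y i ∩ G).Nonempty}` is finite we are done; if it is infinite take an
injective sequence `s` in it (`Set.Infinite.natEmbedding`); `n ↦ Y (s n)` is locally finite, so
`LocallyFinite.finite_nonempty_inter_compact` says that only finitely many `n` have
`(Y (s n) ∩ L).Nonempty`, but all have, a contradiction. -/
def Stmt_LOF : Prop :=
  ∀ (X : Type) [TopologicalSpace X] (I : Type 1) (Y : I → Set X),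
    (∀ p : X, ∃ G : Set X, IsOpen G ∧ p ∈ G ∧ ((∃ L, IsCompact L ∧ G ⊆ L) ∨
      ∀ i, Disjoint (Y i) G)) →
    (∀ s : ℕ → I, Function.Injective s → LocallyFinite fun n => Y (s n)) →
    LocallyFinite Y

/-- BLOCK RED (40 lines). Reduction of the compact neighbourhoods.

Proof. By normality there is an open `G` with
`D ⊆ G ⊆ closure G ⊆ ⋃ β < κ, interior (K β)`, `D = d '' Iio κ.ord`. Put
`K' β = K β ∩ closure G`. `d β ∈ G ∩ interior (K β) ⊆ K' β`. Let `p : X`. If
`p ∈ interior (K γ)` for some `γ < κ.ord`, take this open set, contained in the compact `K γ`.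
Otherwise `p ∉ closure G`; take `(closure G)ᶜ`, which misses all `K' β`. -/
def Stmt_RED : Prop :=
  ∀ (κ : Cardinal.{0}) (X : Type) [TopologicalSpace X] [T4Space X]
    (d : Ordinal.{0} → X) (K : Ordinal.{0} → Set X), IsClosed (d '' Iio κ.ord) →
    (∀ β < κ.ord, IsCompact (K β) ∧ d β ∈ interior (K β)) →
    ∃ K' : Ordinal.{0} → Set X,
      (∀ β < κ.ord, IsCompact (K' β) ∧ d β ∈ interior (K' β) ∧ K' β ⊆ K β) ∧
      ∀ p : X, ∃ G : Set X, IsOpen G ∧ p ∈ G ∧ ((∃ L, IsCompact L ∧ G ⊆ L) ∨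
        ∀ β < κ.ord, Disjoint (K' β) G)

/-- BLOCK CLO (60 lines, uses LFE). Closing off, first part.

Proof. Fix `ε < κ.ord`. The family `{d β}`, `β < ε` is locally finite (`X` is T1, all `d '' S` are
closed: the complement of `d '' (Iio ε \ {β})` is an open set which contains `d β`, the complement
of `d '' Iio ε` contains all the other points) and disjoint, so `hsep` gives disjoint open sets
`W β ∋ d β`, and LFE (with `I = Iio ε`) gives a locally finite open family `V ε β ⊆ W β`,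
`d β ∈ V ε β` (`β < ε`). By regularity (`X` is T3: `exists_mem_nhds_isClosed_subset`) and the base
property there is `ξ < κ.ord` with `closure (u β ξ) ⊆ V ε β`; call it `x ε β`. As `κ` is regular
there is `g ε < κ.ord` above all `x ε β`, `β < ε` (`exists_bound` in Base.lean with
`card_Iic_lt`). -/
def Stmt_CLO : Prop :=
  ∀ (κ : Cardinal.{0}), ℵ₀ < κ → κ.IsRegular → ∀ (X : Type) [TopologicalSpace X] [T4Space X]
    (d : Ordinal.{0} → X) (u : Ordinal.{0} → Ordinal.{0} → Set X),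
    InjOn d (Iio κ.ord) → (∀ S ⊆ Iio κ.ord, IsClosed (d '' S)) →
    (∀ β < κ.ord, ∀ V : Set X, IsOpen V → d β ∈ V → ∃ ξ < κ.ord, u β ξ ⊆ V) →
    (∀ ε < κ.ord, ∃ W : Ordinal.{0} → Set X, (∀ β < ε, IsOpen (W β) ∧ d β ∈ W β) ∧
      ∀ β < ε, ∀ γ < ε, β ≠ γ → Disjoint (W β) (W γ)) →
    ∃ (V : Ordinal.{0} → Ordinal.{0} → Set X) (g : Ordinal.{0} → Ordinal.{0}),
      (∀ α < κ.ord, g α < κ.ord) ∧ ∀ ε < κ.ord,
        (LocallyFinite fun β : Iio ε => V ε β) ∧
        (∀ β < ε, ∀ γ < ε, β ≠ γ → Disjoint (V ε β) (V ε γ)) ∧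
        ∀ β < ε, ∃ ξ < g ε, closure (u β ξ) ⊆ V ε β

/-- BLOCK DRG (30 lines). Closing off, second part: the bases are directed below closure points.

Proof. For `β, ξ, η < κ.ord` the open set `u β ξ ∩ u β η` contains `d β`, so it contains some
`u β (m β ξ η)`, `m β ξ η < κ.ord`. For `ε < κ.ord` the bound `g ε` of all `m β ξ η` with
`β, ξ, η ≤ ε` exists as `κ` is regular and there are fewer than `κ` triples (`exists_bound`). -/
def Stmt_DRG : Prop :=
  ∀ (κ : Cardinal.{0}), ℵ₀ < κ → κ.IsRegular → ∀ (X : Type) [TopologicalSpace X]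
    (d : Ordinal.{0} → X) (u : Ordinal.{0} → Ordinal.{0} → Set X),
    (∀ β < κ.ord, ∀ ξ < κ.ord, IsOpen (u β ξ) ∧ d β ∈ u β ξ) →
    (∀ β < κ.ord, ∀ V : Set X, IsOpen V → d β ∈ V → ∃ ξ < κ.ord, u β ξ ⊆ V) →
    ∃ g : Ordinal.{0} → Ordinal.{0}, (∀ α < κ.ord, g α < κ.ord) ∧ ∀ ε < κ.ord,
      ∀ β ≤ ε, ∀ ξ ≤ ε, ∀ η ≤ ε, ∃ ζ < g ε, u β ζ ⊆ u β ξ ∩ u β η

/-- BLOCK CDF (60 lines, uses LOF). The compact sets at a closure point of uncountable cofinality
form a locally finite disjoint family.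

Proof. `Y β = K' β ∩ ⋂ ξ < δ, closure (u β ξ)`. For `β < ε < δ` we have `Y β ⊆ V ε β` (there is
`ξ < g ε < δ` with `closure (u β ξ) ⊆ V ε β`). Disjoint: given `β, γ < δ` take
`ε = succ (max β γ) < δ`. Locally finite: apply LOF to `Y` on `I = Iio δ`; the condition at points
holds because `Y β ⊆ K' β`. For an injective sequence `s` in `Iio δ` there is, since `Unc δ`, an
`ε < δ` above all `s n`; `n ↦ V ε (s n)` is locally finite (`LocallyFinite.comp_injective`) and
`Y (s n) ⊆ V ε (s n)` (`LocallyFinite.subset`). -/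
def Stmt_CDF : Prop :=
  ∀ (κ : Cardinal.{0}) (X : Type) [TopologicalSpace X]
    (u : Ordinal.{0} → Ordinal.{0} → Set X) (K' : Ordinal.{0} → Set X)
    (V : Ordinal.{0} → Ordinal.{0} → Set X) (g : Ordinal.{0} → Ordinal.{0}),
    (∀ p : X, ∃ G : Set X, IsOpen G ∧ p ∈ G ∧ ((∃ L, IsCompact L ∧ G ⊆ L) ∨
        ∀ β < κ.ord, Disjoint (K' β) G)) →
    (∀ ε < κ.ord, (LocallyFinite fun β : Iio ε => V ε β) ∧
        (∀ β < ε, ∀ γ < ε, β ≠ γ → Disjoint (V ε β) (V ε γ)) ∧
        ∀ β < ε, ∃ ξ < g ε, closure (u β ξ) ⊆ V ε β) →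
    ∀ δ ∈ Cl κ g, Unc δ →
      (LocallyFinite fun β : Iio δ => K' β ∩ ⋂ ξ ∈ Iio δ, closure (u β ξ)) ∧
      ∀ β < δ, ∀ γ < δ, β ≠ γ → Disjoint (K' β ∩ ⋂ ξ ∈ Iio δ, closure (u β ξ))
        (K' γ ∩ ⋂ ξ ∈ Iio δ, closure (u γ ξ))

/-- BLOCK DIR (30 lines). Compactness.

Proof. Apply `exists_subset_nhds_of_isCompact'` to the family `ξ : Iio δ ↦ K ∩ closure (v ξ)` of
compact sets (nonempty index set because `0 < δ`), directed by the last hypothesis: for
`ξ, η < δ` put `ε = max ξ η`, get `ζ < δ` with `v ζ ⊆ v ξ ∩ v η`, so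
`closure (v ζ) ⊆ closure (v ξ) ∩ closure (v η)`. -/
def Stmt_DIR : Prop :=
  ∀ (X : Type) [TopologicalSpace X] [T4Space X] (δ : Ordinal.{0}) (v : Ordinal.{0} → Set X)
    (K W : Set X), 0 < δ → IsCompact K → IsOpen W → (K ∩ ⋂ ξ ∈ Iio δ, closure (v ξ)) ⊆ W →
    (∀ ξ < δ, ∀ η < δ, ∃ ζ < δ, v ζ ⊆ v ξ ∩ v η) →
    ∃ ξ < δ, K ∩ closure (v ξ) ⊆ W

/-! ### Weakly compact cardinals -/

/-- regressive functions can be frozen simultaneously, below every bound. -/
def Norm (κ : Cardinal.{0}) : Prop :=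
  ∀ r : Ordinal.{0} → Ordinal.{0} → Ordinal.{0}, (∀ i < κ.ord, ∀ δ, 0 < δ → δ < κ.ord →
    r i δ < δ) → ∃ F : Ordinal.{0} → Ordinal.{0}, ∀ ρ < κ.ord, ∃ δ, ρ ≤ δ ∧ δ < κ.ord ∧
      ∀ i < ρ, r i δ = F i

/-- BLOCK INE (25 lines). Ineffable cardinals are weakly compact.

Proof. Given `A`, let `S α = {ξ < α | α ∈ A ξ}` and take `B` with `{α | B ∩ Iio α = S α}`
stationary; let `T` be this set intersected with `Iio κ.ord`. It is unbounded (the final segments
`{α | β ≤ α < κ.ord}` are clubs, `κ.ord` is a limit). For `ξ < κ.ord` put `ρ = succ ξ`: for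
`γ ∈ T`, `ρ ≤ γ` we have `γ ∈ A ξ` iff `ξ ∈ S γ = B ∩ Iio γ` iff `ξ ∈ B`. -/
def Stmt_INE : Prop := ∀ κ : Cardinal.{0}, ℵ₀ < κ → κ.IsRegular → Ineff κ → WCpt κ

/-- BLOCK ENU (30 lines). Enumeration of the pairs (finite sequence of ordinals below `κ`, ordinal
below `κ`) by the ordinals below `κ`.

Proof. `#(List (Iio κ.ord) × Iio κ.ord) = lift κ = #(Iio κ.ord)` (`Cardinal.mk_list_eq_mk`,
`mul_eq_self`, as in `exists_pairing` of Base.lean). -/
def Stmt_ENU : Prop :=
  ∀ κ : Cardinal.{0}, ℵ₀ < κ → ∃ e : Ordinal.{0} → List Ordinal.{0} × Ordinal.{0},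
    ∀ (l : List Ordinal.{0}) (ξ : Ordinal.{0}), (∀ i ∈ l, i < κ.ord) → ξ < κ.ord →
      ∃ a < κ.ord, e a = (l, ξ)

/-- BLOCK NRM (150 lines, uses ENU). Weakly compact cardinals are normal in the sense of `Norm`.

Proof. Replace `r i δ` by `0` when `δ = 0` or `κ.ord ≤ δ`; so all `r i` map `κ` to `κ`, and
`r i δ < δ` for `0 < δ < κ`. For a list `l = [i1, ..., ik]` of ordinals below `κ` let
`τ l = r i1 ∘ ... ∘ r ik` (`List.foldr`), `τ [] = id`. Apply `WCpt` to the sets
`A a = {α | ξ < τ l α}` where `e a = (l, ξ)` (ENU): get the unbounded `T`. Say that a set `Z` of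
ordinals is LARGE if `∃ ρ < κ.ord, ∀ γ ∈ T, ρ ≤ γ → γ ∈ Z`. Large sets contain elements of `T`;
intersections of fewer than `κ` large sets (families indexed by `Iio ρ`, `ρ < κ`, or by `ℕ`) are
large as `κ` is regular (`exists_bound`); and for every `l`, `ξ` one of `{α | ξ < τ l α}`,
`{α | τ l α ≤ ξ}` is large (D). Call `l` unbounded if `{α | ξ < τ l α}` is large for all
`ξ < κ`. `[]` is unbounded.
Claim: some unbounded `l` is such that no `i :: l` (`i < κ`) is unbounded. Otherwise there are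
unbounded `l 0 = []`, `l (n+1) = i n :: l n`; take `α ∈ T` in all the large sets
`{α | 0 < τ (l n) α}`: `τ (l (n+1)) α = r (i n) (τ (l n) α) < τ (l n) α` for all `n`, an infinite
descending sequence of ordinals, a contradiction (`wellFounded_lt`, e.g. via `WellFounded.min` or
`not_strictAnti_of_wellFoundedLT`).
Fix this `l` and `h = τ l`. For `i < κ`, `i :: l` is not unbounded, so by (D) there is `ξ < κ` with
`{α | r i (h α) ≤ ξ}` large; let `F i` be the least one. For every `ξ < F i` the set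
`{α | ξ < r i (h α)}` is large by (D); so `{α | r i (h α) = F i}` is large (intersection of fewer
than `κ` large sets). Given `ρ < κ`, the sets `{α | r i (h α) = F i}`, `i < ρ`, and
`{α | ρ < h α}` are large; take `α ∈ T` in all of them and `δ = h α`: `ρ < δ < κ` (all functions
map `κ` to `κ`) and `r i δ = F i` for all `i < ρ`. (`0 < δ < κ`, so the old `r i δ`.) -/
def Stmt_NRM : Prop := ∀ κ : Cardinal.{0}, ℵ₀ < κ → κ.IsRegular → WCpt κ → Norm κ

/-- BLOCK REF (90 lines). Reflection: local solutions at closure points of uncountable cofinality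
cohere.

Proof. Apply `Norm κ` to the following regressive functions `r i` (`i < κ`, `0 < δ < κ`), with
finite flags `0, 1, 2` in `r 0 δ` (for `δ ≥ 3`; put `r i δ = 0` for all `i` if `δ < 3`):
(a) `δ ∉ Cl κ g`: `r 0 δ = 0`; there is `s < δ` with `δ ≤ max (g s) (succ s)` (if `δ` is not a
limit it is a successor `succ s`; if it is a limit some `s < δ` has `δ ≤ g s`); `r i δ = s` for
`i > 0`.
(b) `δ ∈ Cl κ g`, not `Unc δ`: `r 0 δ = 1`; there is `c : ℕ → Ordinal` with `c n < δ` and no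
`ε < δ` above all `c n`; `r (n + 1) δ = c n` for natural numbers `n`, `0` for the other `i`.
(c) `δ ∈ Cl κ g`, `Unc δ`: `r 0 δ = 2`; `r (i + 1) δ = f δ i` if `i < δ`, `0` otherwise. (For
limit `i` put `r i δ = 0`; it is convenient to use `r (1 + i)` instead: every `j ≥ 1` is
`1 + (j - 1)`, `Ordinal.add_sub_cancel_of_le`.)
Let `F` be as in `Norm`. If `F 0 = 0`: take `ρ > 3, g (F 1), succ (F 1)`, `ρ > 1`, `ρ < κ`, and
`δ ≥ ρ` with `r 0 δ = F 0`, `r 1 δ = F 1`: case (a), so `δ ≤ max (g (F 1)) (succ (F 1)) < ρ`, a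
contradiction. (If `F 1 ≥ κ` it cannot be a value; take first any such `δ`.) If `F 0 = 1`: the
ordinals `F (1 + n)` have a bound `σ < κ`; take `ρ > σ, ω, 3`, `δ ≥ ρ`; case (b), and
`c n = F (1 + n) < σ < δ` for all `n`, a contradiction. So `F 0 = 2` (take one `δ ≥ 3`) and for
`β, γ < κ` take `ρ > 3, 1 + β, 1 + γ`, and `δ ≥ ρ`: case (c), and
`f δ β = r (1 + β) δ = F (1 + β)`, the same for `γ`. -/
def Stmt_REF : Prop :=
  ∀ κ : Cardinal.{0}, ℵ₀ < κ → κ.IsRegular → Norm κ →
    ∀ g : Ordinal.{0} → Ordinal.{0}, (∀ α < κ.ord, g α < κ.ord) →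
    ∀ f : Ordinal.{0} → Ordinal.{0} → Ordinal.{0},
    (∀ δ ∈ Cl κ g, Unc δ → ∀ β < δ, f δ β < δ) →
    ∃ F : Ordinal.{0} → Ordinal.{0}, ∀ β < κ.ord, ∀ γ < κ.ord, ∃ δ ∈ Cl κ g, Unc δ ∧
      β < δ ∧ γ < δ ∧ f δ β = F β ∧ f δ γ = F γ

/-! ### The theorem -/

/-- BLOCK COR (100 lines, uses RED, CLO, DRG, CDF, DIR, REF). The core theorem.

Proof. Take `K'` from RED, `V`, `g1` from CLO (its hypothesis: `hsep` for `Y β = {d β}`, which is
locally finite on `Iio ε`), `g2` from DRG, `g = max g1 g2`. For `δ ∈ Cl κ g` with `Unc δ`: the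
sets `Y β = K' β ∩ ⋂ ξ < δ, closure (u β ξ)` (`β < δ`) are compact subsets of `K β`, locally
finite and disjoint by CDF, so `hsep` gives disjoint open `W δ β ⊇ Y β`; by DIR there is
`f δ β < δ` with `K' β ∩ closure (u β (f δ β)) ⊆ W δ β` (directedness: for `β, ξ, η < δ` put
`ε = max β ξ η`, DRG gives `ζ < g2 ε < δ`). Let `F` be as in REF and
`Q β = interior (K' β) ∩ u β (F β)`. For `β ≠ γ` below `κ` take `δ` from REF: `Q β ⊆ W δ β`,
`Q γ ⊆ W δ γ`, disjoint. `Q β` is open and contains `d β` (`F β = f δ β < δ < κ.ord`). -/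
def Stmt_COR : Prop :=
  ∀ (κ : Cardinal.{0}), ℵ₀ < κ → κ.IsRegular → Norm κ →
    ∀ (X : Type) [TopologicalSpace X] [T4Space X]
    (d : Ordinal.{0} → X) (u : Ordinal.{0} → Ordinal.{0} → Set X) (K : Ordinal.{0} → Set X),
    InjOn d (Iio κ.ord) → (∀ S ⊆ Iio κ.ord, IsClosed (d '' S)) →
    (∀ β < κ.ord, ∀ ξ < κ.ord, IsOpen (u β ξ) ∧ d β ∈ u β ξ) →
    (∀ β < κ.ord, ∀ V : Set X, IsOpen V → d β ∈ V → ∃ ξ < κ.ord, u β ξ ⊆ V) →
    (∀ β < κ.ord, IsCompact (K β) ∧ d β ∈ interior (K β)) →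
    (∀ ε < κ.ord, ∀ Y : Ordinal.{0} → Set X, (∀ β < ε, IsCompact (Y β) ∧ Y β ⊆ K β) →
      (LocallyFinite fun β : Iio ε => Y β) →
      (∀ β < ε, ∀ γ < ε, β ≠ γ → Disjoint (Y β) (Y γ)) →
      ∃ W : Ordinal.{0} → Set X, (∀ β < ε, IsOpen (W β) ∧ Y β ⊆ W β) ∧
        ∀ β < ε, ∀ γ < ε, β ≠ γ → Disjoint (W β) (W γ)) →
    ∃ Q : Ordinal.{0} → Set X, (∀ β < κ.ord, IsOpen (Q β) ∧ d β ∈ Q β) ∧
      ∀ β < κ.ord, ∀ γ < κ.ord, β ≠ γ → Disjoint (Q β) (Q γ)

/-- the topological hypothesis of part A: discrete families of fewer than `κ` compact sets, each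
contained in the given neighbourhood of a point of `D`, have disjoint open expansions. -/
def SepFam (κ : Cardinal.{0}) (X : Type) [TopologicalSpace X] (D : Set X) (K : X → Set X) :
    Prop :=
  ∀ E ⊆ D, #↥E < κ → ∀ Y : X → Set X, (∀ x ∈ E, IsCompact (Y x) ∧ Y x ⊆ K x) →
    (LocallyFinite fun x : ↥E => Y x) → E.PairwiseDisjoint Y →
    ∃ W : X → Set X, (∀ x ∈ E, IsOpen (W x) ∧ Y x ⊆ W x) ∧ E.PairwiseDisjoint W

/-- BLOCK MNA (120 lines, uses COR). Part A.

Proof. If `#D < κ`: apply `SepFam` to `E = D`, `Y x = {x}` (`{x} ⊆ K x` since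
`x ∈ interior (K x)`; locally finite because `D` is closed and discrete). If `#D = κ` enumerate
`D` without repetitions by `d β`, `β < κ.ord`, choose bases `u β ξ` (`ξ < κ.ord`) from the
character hypothesis (see Results/MP_f3e7a9_gt/SubtleIdeal.lean for both; the `N` may be assumed
nonempty, take interiors of the members to make them open), put `K β = K (d β)`, and translate
`SepFam` (with `E = d '' Iio ε`, `Y` transported by `d`). Apply COR and transport `Q` back. -/
def Stmt_MNA : Prop :=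
  ∀ (κ : Cardinal.{0}), ℵ₀ < κ → κ.IsRegular → Norm κ →
    ∀ (X : Type) [TopologicalSpace X] [T4Space X],
    (∀ x : X, ∃ N : Set (Set X), Cardinal.mk ↥N ≤ κ ∧ (nhds x).HasBasis (fun s => s ∈ N) id) →
    ∀ D : Set X, IsClosed D → DiscreteTopology ↥D → #↥D ≤ κ →
    ∀ K : X → Set X, (∀ x ∈ D, IsCompact (K x) ∧ x ∈ interior (K x)) → SepFam κ X D K →
    ∃ U : X → Set X, (∀ x ∈ D, IsOpen (U x) ∧ x ∈ U x) ∧ D.PairwiseDisjoint U

/-- BLOCK SPF (50 lines, uses SCW, EXP, LEM). Part B: scattered neighbourhoods.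

Proof. Given `E`, `Y`: let `I = ULift.{1} ↥E`, `Y' i = Y i.down`. The `Y' i` are compact, hence
closed, and scattered as subsets of `K x`; so they have strategy trees (SCW). EXP gives the last
hypothesis of LEM; LEM gives `W`. -/
def Stmt_SPF : Prop :=
  ∀ (κ : Cardinal.{0}) (X : Type) [TopologicalSpace X] [T4Space X], CW κ X →
    ∀ (D : Set X) (K : X → Set X), (∀ x ∈ D, IsCompact (K x) ∧ Scat (K x)) → SepFam κ X D K

end Pool.Agent.Work.MP_f3e7a9_wc
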