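import Pool.Agent.Work.MP_f3e7a9_wc.Interface

/-!
Second version: points contained in compact sets of small character.
-/

namespace Pool.Agent.Work.MP_f3e7a9_wc

open Set Cardinal Topology
open Pool.Agent.Work.MP_f3e7a9_gt (IsClubIn Cl)

/-- cofinality greater than `μ` (for limit ordinals `δ`). -/
def UncM (μ : Cardinal.{0}) (δ : Ordinal.{0}) : Prop :=
  ∀ s : Ordinal.{0} → Ordinal.{0}, (∀ i < μ.ord, s i < δ) → ∃ ε < δ, ∀ i < μ.ord, s i < ε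

/-- the set `H` has character at most `μ` in the space: a base of at most `μ` open
neighbourhoods. -/
def CharLe {X : Type} [TopologicalSpace X] (μ : Cardinal.{0}) (H : Set X) : Prop :=
  ∃ N : Set (Set X), #↥N ≤ μ ∧ (∀ G ∈ N, IsOpen G ∧ H ⊆ G) ∧
    ∀ O : Set X, IsOpen O → H ⊆ O → ∃ G ∈ N, G ⊆ O

def Stmt_REF2 : Prop :=
  ∀ κ : Cardinal.{0}, ℵ₀ < κ → κ.IsRegular → Norm κ → ∀ μ < κ,
    ∀ g : Ordinal.{0} → Ordinal.{0}, (∀ α < κ.ord, g α < κ.ord) →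
    ∀ f : Ordinal.{0} → Ordinal.{0} → Ordinal.{0},
    (∀ δ ∈ Cl κ g, UncM μ δ → ∀ β < δ, f δ β < δ) →
    ∃ F : Ordinal.{0} → Ordinal.{0}, ∀ β < κ.ord, ∀ γ < κ.ord, ∃ δ ∈ Cl κ g, UncM μ δ ∧
      β < δ ∧ γ < δ ∧ f δ β = F β ∧ f δ γ = F γ

def Stmt_LOF2 : Prop :=
  ∀ (μ : Cardinal.{0}), ℵ₀ ≤ μ → ∀ (X : Type) [TopologicalSpace X] (I : Type 1) (Y : I → Set X),
    (∀ p : X, (∃ H : Set X, IsCompact H ∧ p ∈ H ∧ CharLe μ H) ∨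
      ∃ G : Set X, IsOpen G ∧ p ∈ G ∧ ∀ i, Disjoint (Y i) G) →
    (∀ J : Set I, #↥J ≤ Cardinal.lift.{1} μ → LocallyFinite fun i : ↥J => Y i.1) →
    LocallyFinite Y

def Stmt_CLH : Prop :=
  ∀ (κ : Cardinal.{0}), ℵ₀ < κ → κ.IsRegular → ∀ (X : Type) [TopologicalSpace X] [T4Space X]
    (d : Ordinal.{0} → X) (u : Ordinal.{0} → Ordinal.{0} → Set X)
    (N : Ordinal.{0} → Set (Set X)), (∀ β < κ.ord, #↥(N β) < κ) →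
    (∀ β < κ.ord, ∀ G ∈ N β, IsOpen G ∧ d β ∈ G) →
    (∀ β < κ.ord, ∀ V : Set X, IsOpen V → d β ∈ V → ∃ ξ < κ.ord, u β ξ ⊆ V) →
    ∃ g : Ordinal.{0} → Ordinal.{0}, (∀ α < κ.ord, g α < κ.ord) ∧ ∀ ε < κ.ord,
      ∀ β ≤ ε, ∀ G ∈ N β, ∃ ξ < g ε, closure (u β ξ) ⊆ G

def Stmt_CDF2 : Prop :=
  ∀ (κ μ : Cardinal.{0}), ℵ₀ ≤ μ → ∀ (X : Type) [TopologicalSpace X]
    (u : Ordinal.{0} → Ordinal.{0} → Set X) (G0 : Set X)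
    (V : Ordinal.{0} → Ordinal.{0} → Set X) (g : Ordinal.{0} → Ordinal.{0}),
    (∀ p : X, (∃ H : Set X, IsCompact H ∧ p ∈ H ∧ CharLe μ H) ∨
      ∃ G : Set X, IsOpen G ∧ p ∈ G ∧ Disjoint G0 G) →
    (∀ ε < κ.ord, (LocallyFinite fun β : Iio ε => V ε β) ∧
        (∀ β < ε, ∀ γ < ε, β ≠ γ → Disjoint (V ε β) (V ε γ)) ∧
        ∀ β < ε, ∃ ξ < g ε, closure (u β ξ) ⊆ V ε β) →
    (∀ ε < κ.ord, ∀ β ≤ ε, ∃ ξ < g ε, closure (u β ξ) ⊆ G0) →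
    ∀ δ ∈ Cl κ g, UncM μ δ →
      (LocallyFinite fun β : Iio δ => ⋂ ξ ∈ Iio δ, closure (u β ξ)) ∧
      ∀ β < δ, ∀ γ < δ, β ≠ γ → Disjoint (⋂ ξ ∈ Iio δ, closure (u β ξ))
        (⋂ ξ ∈ Iio δ, closure (u γ ξ))

def Stmt_DIR2 : Prop :=
  ∀ (X : Type) [TopologicalSpace X] [T4Space X] (δ : Ordinal.{0}) (v : Ordinal.{0} → Set X)
    (H W : Set X), 0 < δ → IsCompact H → IsOpen W →
    (∀ O : Set X, IsOpen O → H ⊆ O → ∃ ξ < δ, closure (v ξ) ⊆ O) →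
    (⋂ ξ ∈ Iio δ, closure (v ξ)) ⊆ W →
    (∀ ξ < δ, ∀ η < δ, ∃ ζ < δ, v ζ ⊆ v ξ ∩ v η) →
    ∃ ξ < δ, closure (v ξ) ⊆ W

def Stmt_COR2 : Prop :=
  ∀ (κ : Cardinal.{0}), ℵ₀ < κ → κ.IsRegular → Norm κ → ∀ μ < κ, ℵ₀ ≤ μ →
    ∀ (X : Type) [TopologicalSpace X] [T4Space X]
    (d : Ordinal.{0} → X) (u : Ordinal.{0} → Ordinal.{0} → Set X) (H : Ordinal.{0} → Set X)
    (U : Set X),
    InjOn d (Iio κ.ord) → (∀ S ⊆ Iio κ.ord, IsClosed (d '' S)) →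
    (∀ β < κ.ord, ∀ ξ < κ.ord, IsOpen (u β ξ) ∧ d β ∈ u β ξ) →
    (∀ β < κ.ord, ∀ V : Set X, IsOpen V → d β ∈ V → ∃ ξ < κ.ord, u β ξ ⊆ V) →
    (∀ β < κ.ord, IsCompact (H β) ∧ d β ∈ H β ∧ CharLe μ (H β)) →
    IsOpen U → (∀ β < κ.ord, d β ∈ U) →
    (∀ p ∈ U, ∃ L : Set X, IsCompact L ∧ p ∈ L ∧ CharLe μ L) →
    (∀ ε < κ.ord, ∀ Y : Ordinal.{0} → Set X, (∀ β < ε, IsCompact (Y β) ∧ Y β ⊆ H β) →
      (LocallyFinite fun β : Iio ε => Y β) →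
      (∀ β < ε, ∀ γ < ε, β ≠ γ → Disjoint (Y β) (Y γ)) →
      ∃ W : Ordinal.{0} → Set X, (∀ β < ε, IsOpen (W β) ∧ Y β ⊆ W β) ∧
        ∀ β < ε, ∀ γ < ε, β ≠ γ → Disjoint (W β) (W γ)) →
    ∃ Q : Ordinal.{0} → Set X, (∀ β < κ.ord, IsOpen (Q β) ∧ d β ∈ Q β) ∧
      ∀ β < κ.ord, ∀ γ < κ.ord, β ≠ γ → Disjoint (Q β) (Q γ)

def Stmt_MNA2 : Prop :=
  ∀ (κ : Cardinal.{0}), ℵ₀ < κ → κ.IsRegular → Norm κ → ∀ μ < κ, ℵ₀ ≤ μ →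
    ∀ (X : Type) [TopologicalSpace X] [T4Space X],
    ∀ D : Set X, IsClosed D → DiscreteTopology ↥D → #↥D ≤ κ →
    (∀ x ∈ D, ∃ N : Set (Set X), Cardinal.mk ↥N ≤ κ ∧
      (nhds x).HasBasis (fun s => s ∈ N) id) →
    ∀ U : Set X, IsOpen U → D ⊆ U → ∀ H : X → Set X,
    (∀ p ∈ U, IsCompact (H p) ∧ p ∈ H p ∧ CharLe μ (H p)) → SepFam κ X D H →
    ∃ W : X → Set X, (∀ x ∈ D, IsOpen (W x) ∧ x ∈ W x) ∧ D.PairwiseDisjoint W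

/-- compact neighbourhoods give compact sets of countable character. -/
def Stmt_KH : Prop :=
  ∀ (X : Type) [TopologicalSpace X] [T4Space X] (K : Set X) (p : X), IsCompact K →
    p ∈ interior K → ∃ H : Set X, IsCompact H ∧ p ∈ H ∧ H ⊆ K ∧ CharLe ℵ₀ H

end Pool.Agent.Work.MP_f3e7a9_wc
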